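import Pool.Agent.Work.MP_f6e869_nb.Interface

/-!
# APP: two vertices behind a path
-/

namespace Pool.NB

open Pool.PE
open scoped Classical

theorem APP_notMem {V : Type} {A B : Finset V} {a z w : V} (hd : Disjoint A B)
    (ha : a ∈ A) (hz : z ∈ B) (hw : w ∈ A.erase a ∨ w ∈ B.erase z) : w ≠ a ∧ w ≠ z := by
  rcases hw with h | h
  · rw [Finset.mem_erase] at h
    refine ⟨h.1, ?_⟩
    rintro rfl
    exact (Finset.disjoint_left.1 hd) h.2 hz
  · rw [Finset.mem_erase] at h
    refine ⟨?_, h.1⟩
    rintro rfl
    exact (Finset.disjoint_left.1 hd) ha h.2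

theorem p_APP : S_APP := by
  intro V G A B u z a b j hd ha hz hba haz hP
  obtain ⟨q, hq, hlen, hsup⟩ := hP
  have haq : a ∉ q.support := fun h => (APP_notMem hd ha hz (hsup a h)).1 rfl
  have hzq : z ∉ q.support := fun h => (APP_notMem hd ha hz (hsup z h)).2 rfl
  have hza : z ≠ a := by
    rintro rfl
    exact (Finset.disjoint_left.1 hd) ha hz
  refine ⟨(q.concat hba).concat haz, ?_, ?_, ?_⟩
  · refine (hq.concat haq hba).concat ?_ haz
    rw [SimpleGraph.Walk.support_concat]
    simp only [List.concat_eq_append, List.mem_append, List.mem_singleton, not_or]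
    exact ⟨hzq, hza⟩
  · rw [SimpleGraph.Walk.length_concat, SimpleGraph.Walk.length_concat]
    omega
  · intro w hw
    rw [SimpleGraph.Walk.support_concat, SimpleGraph.Walk.support_concat] at hw
    simp only [List.concat_eq_append, List.mem_append, List.mem_singleton] at hw
    rcases hw with (hw | hw) | hw
    · rcases hsup w hw with h | h
      · exact Or.inl (Finset.mem_of_mem_erase h)
      · exact Or.inr (Finset.mem_of_mem_erase h)
    · rw [hw]
      exact Or.inl ha
    · rw [hw]
      exact Or.inr hz

end Pool.NB
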