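import Pool.Agent.Work.MP_f6e869_nb.Interface

/-!
CE: closing a path from x to z by the edge xz.
-/

namespace Pool.NB

open Pool.PE
open scoped Classical

theorem CE_not_mem {V : Type} (G : SimpleGraph V) (x z : V) (q : G.Walk x z) (hq : q.IsPath)
    (hl : 2 ≤ q.length) : s(x, z) ∉ q.edges := by
  intro h
  cases q with
  | nil => simp at hl
  | cons h' r =>
    rename_i y
    rw [SimpleGraph.Walk.cons_isPath_iff] at hq
    rw [SimpleGraph.Walk.edges_cons, List.mem_cons] at h
    rcases h with h | h
    · have hz : z = y := by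
        rw [Sym2.eq_iff] at h
        rcases h with h | h
        · exact h.2
        · exact (h.2.trans h.1)
      subst hz
      have := SimpleGraph.Walk.isPath_iff_eq_nil.1 hq.1
      subst this
      simp at hl
    · exact hq.2 (SimpleGraph.Walk.fst_mem_support_of_mem_edges r h)

theorem p_CE : S_CE := by
  intro V G x z q hq hl hxz
  refine ⟨SimpleGraph.Walk.cons hxz q.reverse, ?_, ?_, ?_⟩
  · rw [SimpleGraph.Walk.cons_isCycle_iff]
    refine ⟨hq.reverse, ?_⟩
    rw [SimpleGraph.Walk.edges_reverse, List.mem_reverse]
    exact CE_not_mem G x z q hq (by omega)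
  · simp
  · simp

end Pool.NB
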