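import Pool.Agent.Work.MP_f6e869_nb.Interface

namespace Pool.NB

open Pool.PE
open scoped Classical

theorem p_CO : S_CO := by
  intro V G x y z q hq hx hl hxy hxz
  have hyz : y ≠ z := by
    rintro rfl
    have h1 : q.Nil := SimpleGraph.Walk.isPath_iff_nil.mp hq
    have h2 := SimpleGraph.Walk.length_eq_zero_iff.mpr h1
    omega
  have hp : (SimpleGraph.Walk.cons hxy q).IsPath :=
    (SimpleGraph.Walk.cons_isPath_iff hxy q).mpr ⟨hq, hx⟩
  refine ⟨SimpleGraph.Walk.cons hxz (SimpleGraph.Walk.cons hxy q).reverse, ?_, ?_, ?_⟩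
  · rw [SimpleGraph.Walk.cons_isCycle_iff]
    refine ⟨hp.reverse, ?_⟩
    rw [SimpleGraph.Walk.edges_reverse, List.mem_reverse, SimpleGraph.Walk.edges_cons,
      List.mem_cons]
    rintro (h | h)
    · rw [Sym2.eq_iff] at h
      rcases h with ⟨-, h⟩ | ⟨h, -⟩
      · exact hyz h.symm
      · exact hx (h ▸ q.start_mem_support)
    · exact hx (q.fst_mem_support_of_mem_edges h)
  · rw [SimpleGraph.Walk.length_cons, SimpleGraph.Walk.length_reverse,
      SimpleGraph.Walk.length_cons]
  · rw [SimpleGraph.Walk.edges_cons]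
    exact List.mem_cons_self

end Pool.NB
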