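import Pool.Agent.Work.MP_f6e869_nb.Interface

/-!
MP_f6e869_co, second theorem, block COM: common neighbours of the two ends.
-/

namespace Pool.NB

open Pool.PE
open scoped Classical

theorem p_COM : S_COM := by
  intro V G X Y T x y h
  constructor
  · have h1 : ((Y.filter fun b => ¬ G.Adj x b).image (fun b => (x, b))).card =
        (Y.filter fun b => ¬ G.Adj x b).card :=
      Finset.card_image_of_injective _ (fun a b hab => (Prod.mk.inj hab).2)
    have h2 : ((Y.filter fun b => ¬ G.Adj y b).image (fun b => (y, b))).card =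
        (Y.filter fun b => ¬ G.Adj y b).card :=
      Finset.card_image_of_injective _ (fun a b hab => (Prod.mk.inj hab).2)
    have hd : Disjoint ((Y.filter fun b => ¬ G.Adj x b).image (fun b => (x, b)))
        ((Y.filter fun b => ¬ G.Adj y b).image (fun b => (y, b))) := by
      rw [Finset.disjoint_left]
      intro p hp hq
      obtain ⟨b, -, rfl⟩ := Finset.mem_image.1 hp
      obtain ⟨c, -, hc⟩ := Finset.mem_image.1 hq
      exact h.ne (Prod.mk.inj hc).1.symm
    rw [← h1, ← h2, ← Finset.card_union_of_disjoint hd]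
    refine Finset.card_le_card ?_
    intro p hp
    rcases Finset.mem_union.1 hp with hp | hp
    · obtain ⟨b, hb, rfl⟩ := Finset.mem_image.1 hp
      obtain ⟨hb1, hb2⟩ := Finset.mem_filter.1 hb
      exact Finset.mem_filter.2 ⟨Finset.mem_product.2 ⟨h.hx, hb1⟩, hb2⟩
    · obtain ⟨b, hb, rfl⟩ := Finset.mem_image.1 hp
      obtain ⟨hb1, hb2⟩ := Finset.mem_filter.1 hb
      exact Finset.mem_filter.2 ⟨Finset.mem_product.2 ⟨h.hy, hb1⟩, hb2⟩
  · intro hlt
    by_contra hcon
    push Not at hcon
    have hsub : Y ⊆ ((Y.filter fun b => ¬ G.Adj x b) ∪ (Y.filter fun b => ¬ G.Adj y b)) ∪ T := by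
      intro z hz
      by_cases hT : z ∈ T
      · exact Finset.mem_union_right _ hT
      · refine Finset.mem_union_left _ ?_
        by_cases hx : G.Adj x z
        · exact Finset.mem_union_right _ (Finset.mem_filter.2 ⟨hz, hcon z hz hT hx⟩)
        · exact Finset.mem_union_left _ (Finset.mem_filter.2 ⟨hz, hx⟩)
    have h3 := Finset.card_le_card hsub
    have h4 := Finset.card_union_le
      ((Y.filter fun b => ¬ G.Adj x b) ∪ (Y.filter fun b => ¬ G.Adj y b)) T
    have h5 := Finset.card_union_le (Y.filter fun b => ¬ G.Adj x b)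
      (Y.filter fun b => ¬ G.Adj y b)
    omega

end Pool.NB
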