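import Pool.Agent.Work.MP_f6e869_nb.Interface

/-!
Block E12.
-/

namespace Pool.NB

open Pool.PE
open scoped Classical

theorem E12_card {V : Type} [Fintype V] {G : SimpleGraph V} {X Y : Finset V} {x y : V}
    (hN : Nb G X Y x y) : Fintype.card V = X.card + Y.card := by
  rw [← Finset.card_union_of_disjoint hN.dis, ← Finset.card_univ]
  congr 1
  ext v
  simp only [Finset.mem_univ, Finset.mem_union, true_iff]
  exact hN.cov v

theorem p_E12 (hCOM : S_COM) (hKILL1 : S_KILL1) (hPA1 : S_PA1) (hP : S_P) (hGOOD : S_GOOD) :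
    S_E12 := by
  intro V _ G X Y x y k hN hX hY hk hm
  have hcV : Fintype.card V = 2 * k := by
    rw [E12_card hN, hX, hY]
    omega
  have hb : ∃ b ∈ Y, mis G (X.erase x) (Y.erase b) + 3 ≤ k := by
    by_cases h0 : mis G X Y = 0
    · obtain ⟨b, hb⟩ : Y.Nonempty := by
        rw [← Finset.card_pos]
        omega
      have h1 := (hKILL1 V G X Y).2.2 (X.erase x) (Y.erase b) (Finset.erase_subset _ _)
        (Finset.erase_subset _ _)
      exact ⟨b, hb, by omega⟩
    · have h1 : 0 < mis G X Y := Nat.pos_of_ne_zero h0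
      unfold mis at h1
      obtain ⟨p, hp⟩ := Finset.card_pos.mp h1
      rw [Finset.mem_filter, Finset.mem_product] at hp
      obtain ⟨⟨hp1, hp2⟩, hp3⟩ := hp
      have h2 := (hKILL1 V G X Y).1 x p.2 p hp1 hp2 hp3 (Or.inr rfl)
      exact ⟨p.2, hp2, by omega⟩
  obtain ⟨b, hbY, hbm⟩ := hb
  obtain ⟨h1, h2⟩ := hCOM V G X Y {b} x y hN
  obtain ⟨z, hzY, hzb, hxz, hyz⟩ := h2 (by
    rw [Finset.card_singleton]
    omega)
  rw [Finset.mem_singleton] at hzb
  refine ⟨z, hGOOD V G X Y x y z hN hzY hxz hyz ?_ ?_⟩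
  · intro j hj hj2
    have h3 : Pa G (X.erase x) (Y.erase b) y z j := by
      refine hP (k - 1) V G (X.erase x) (Y.erase b) y z ?_ ?_ ?_ (by omega) ?_ ?_ j hj (by omega)
      · exact Finset.disjoint_of_subset_left (Finset.erase_subset _ _)
          (Finset.disjoint_of_subset_right (Finset.erase_subset _ _) hN.dis)
      · rw [Finset.card_erase_of_mem hN.hx, hX]
      · rw [Finset.card_erase_of_mem hbY, hY]
      · exact Finset.mem_erase.mpr ⟨hN.ne.symm, hN.hy⟩
      · exact Finset.mem_erase.mpr ⟨hzb, hzY⟩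
    exact (hPA1 V G (X.erase x) (Y.erase b) y z).2 (X.erase x) Y j (Finset.Subset.refl _)
      (Finset.erase_subset _ _) h3
  · intro j hj hj2
    exact hP k V G X Y x z hN.dis hX hY hm hN.hx hzY j hj (by omega)

end Pool.NB
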