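import Pool.Agent.Work.MP_f6e869_nb.Interface

/-! # E3a: two missing pairs at x -/

set_option autoImplicit false

namespace Pool.NB

open Pool.PE
open scoped Classical

theorem p_E3a (hCOM : S_COM) (hKILL2 : S_KILL2) (hEK : S_EK) : S_E3a := by
  intro V _ G X Y x y b1 b2 k hnb hX hY hk hmis h1 h2 hb1 hb2 hne hx1 hx2
  obtain ⟨c1, c2⟩ := hCOM V G X Y ∅ x y hnb
  obtain ⟨z, hz, -, hxz, hyz⟩ := c2 (by rw [Finset.card_empty, hY]; omega)
  have key : ∀ b ∈ Y, b ≠ z → G.Adj x b → ∃ z, Pan G x z := by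
    intro b hb hbz hxb
    refine ⟨z, hEK V G X Y x y b z k hnb hX hY hk (by omega) h2 hb hz hbz.symm hxb hxz hyz ?_⟩
    have := hKILL2 V G X Y x b (x, b1) (x, b2) (fun h => hne (congrArg Prod.snd h)) hnb.hx hb1
      hx1 hnb.hx hb2 hx2 (Or.inl rfl) (Or.inl rfl)
    omega
  obtain ⟨a, ha, b, hb, hab, hxa, hxb⟩ := h1 x hnb.hx
  by_cases h : a = z
  · exact key b hb (fun e => hab (h.trans e.symm)) hxb
  · exact key a ha h hxa

end Pool.NB
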