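import Pool.Agent.Work.MP_f6e869_nb.Interface

/-! E3b, typed by helper7. -/

namespace Pool.NB

open Pool.PE
open scoped Classical

/-- b is adjacent to x: EK with b and a common neighbour z other than b. -/
theorem E3b_core (hCOM : S_COM) (hKILL2 : S_KILL2) (hEK : S_EK)
    (V : Type) [Fintype V] (G : SimpleGraph V) (X Y : Finset V)
    (x y b a1 a2 : V) (k : ℕ) (hN : Nb G X Y x y) (hX : X.card = k) (hY : Y.card = k)
    (hk : 4 ≤ k) (hm : mis G X Y + 1 = k)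
    (h2 : ∀ v ∈ Y, ∃ a ∈ X, ∃ b ∈ X, a ≠ b ∧ G.Adj a v ∧ G.Adj b v)
    (hx1 : ∀ b ∈ Y, ∀ b' ∈ Y, ¬ G.Adj x b → ¬ G.Adj x b' → b = b')
    (hy1 : ∀ b ∈ Y, ∀ b' ∈ Y, ¬ G.Adj y b → ¬ G.Adj y b' → b = b')
    (hb : b ∈ Y) (ha1 : a1 ∈ X) (ha2 : a2 ∈ X) (hne : a1 ≠ a2)
    (n1 : ¬ G.Adj a1 b) (n2 : ¬ G.Adj a2 b) (hxb : G.Adj x b) : ∃ z, Pan G x z := by
  have c1 : (Y.filter fun b => ¬ G.Adj x b).card ≤ 1 := by
    rw [Finset.card_le_one]
    intro u hu v hv
    rw [Finset.mem_filter] at hu hv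
    exact hx1 u hu.1 v hv.1 hu.2 hv.2
  have c2 : (Y.filter fun b => ¬ G.Adj y b).card ≤ 1 := by
    rw [Finset.card_le_one]
    intro u hu v hv
    rw [Finset.mem_filter] at hu hv
    exact hy1 u hu.1 v hv.1 hu.2 hv.2
  obtain ⟨z, hzY, hzT, hxz, hyz⟩ := (hCOM V G X Y {b} x y hN).2 (by
    rw [Finset.card_singleton]
    omega)
  have hzb : z ≠ b := fun h => hzT (by rw [h]; exact Finset.mem_singleton_self b)
  have hK := hKILL2 V G X Y x b (a1, b) (a2, b)
    (fun h => hne (congrArg Prod.fst h)) ha1 hb n1 ha2 hb n2 (Or.inr rfl) (Or.inr rfl)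
  exact ⟨z, hEK V G X Y x y b z k hN hX hY hk (by omega) h2 hb hzY hzb hxb hxz hyz (by omega)⟩

/-- x and y miss b: a missing pair (a3, b3) with b3 other than b. -/
theorem E3b_pair {V : Type} (G : SimpleGraph V) (X Y : Finset V) (b : V) (k : ℕ)
    (hX : X.card = k) (hm : mis G X Y + 1 = k)
    (h2 : ∀ v ∈ Y, ∃ a ∈ X, ∃ b ∈ X, a ≠ b ∧ G.Adj a v ∧ G.Adj b v)
    (hb : b ∈ Y) : ∃ a3 ∈ X, ∃ b3 ∈ Y, b3 ≠ b ∧ ¬ G.Adj a3 b3 := by
  by_contra hcon
  push Not at hcon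
  obtain ⟨a, haX, a', haX', haa, ha, ha'⟩ := h2 b hb
  have hsub : ((X ×ˢ Y).filter (fun p => ¬ G.Adj p.1 p.2)) ⊆
      (((X.erase a).erase a').image (fun c => (c, b))) := by
    intro p hp
    rw [Finset.mem_filter, Finset.mem_product] at hp
    obtain ⟨⟨hp1, hp2⟩, hp3⟩ := hp
    have hpb : p.2 = b := by
      by_contra hne
      exact hp3 (hcon p.1 hp1 p.2 hp2 hne)
    rw [Finset.mem_image]
    refine ⟨p.1, ?_, ?_⟩
    · rw [Finset.mem_erase, Finset.mem_erase]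
      refine ⟨?_, ?_, hp1⟩
      · intro h
        apply hp3
        rw [h, hpb]
        exact ha'
      · intro h
        apply hp3
        rw [h, hpb]
        exact ha
    · exact Prod.ext rfl hpb.symm
  have hc1 : mis G X Y ≤ (((X.erase a).erase a').image (fun c => (c, b))).card :=
    Finset.card_le_card hsub
  have hc2 : (((X.erase a).erase a').image (fun c => (c, b))).card ≤
      ((X.erase a).erase a').card := Finset.card_image_le
  have hc3 : ((X.erase a).erase a').card = (X.erase a).card - 1 :=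
    Finset.card_erase_of_mem (Finset.mem_erase.2 ⟨fun h => haa h.symm, haX'⟩)
  have hc4 : (X.erase a).card = X.card - 1 := Finset.card_erase_of_mem haX
  have hc5 : 2 ≤ X.card := by
    have : ({a, a'} : Finset V) ⊆ X := by
      intro w hw
      rw [Finset.mem_insert, Finset.mem_singleton] at hw
      rcases hw with rfl | rfl
      · exact haX
      · exact haX'
    have h := Finset.card_le_card this
    rw [Finset.card_pair haa] at h
    exact h
  omega

theorem p_E3b (hSYM : S_SYM) (hCOM : S_COM) (hKILL2 : S_KILL2) (hEK : S_EK) : S_E3b := by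
  intro V _ G X Y x y b a1 a2 k hN hX hY hk hm h2 hx1 hy1 hb ha1 ha2 hne n1 n2
  by_cases hxb : G.Adj x b
  · obtain ⟨z, hz⟩ := E3b_core hCOM hKILL2 hEK V G X Y x y b a1 a2 k hN hX hY hk hm h2 hx1 hy1
      hb ha1 ha2 hne n1 n2 hxb
    exact ⟨x, z, hz⟩
  by_cases hyb : G.Adj y b
  · obtain ⟨z, hz⟩ := E3b_core hCOM hKILL2 hEK V G X Y y x b a1 a2 k (hSYM V G X Y x y hN)
      hX hY hk hm h2 hy1 hx1 hb ha1 ha2 hne n1 n2 hyb
    exact ⟨y, z, hz⟩
  obtain ⟨a3, ha3, b3, hb3, hbb, n3⟩ := E3b_pair G X Y b k hX hm h2 hb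
  have hxb3 : G.Adj x b3 := by
    by_contra h
    exact hbb (hx1 b3 hb3 b hb h hxb)
  obtain ⟨z, hzY, hzb, hzb3⟩ : ∃ z ∈ Y, z ≠ b ∧ z ≠ b3 := by
    have hc : (({b, b3} : Finset V)).card < Y.card := by
      have := Finset.card_le_two (a := b) (b := b3)
      omega
    obtain ⟨z, hz, hz'⟩ := Finset.exists_mem_notMem_of_card_lt_card hc
    refine ⟨z, hz, ?_, ?_⟩
    · rintro rfl
      exact hz' (Finset.mem_insert_self _ _)
    · rintro rfl
      exact hz' (Finset.mem_insert_of_mem (Finset.mem_singleton_self _))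
  have hxz : G.Adj x z := by
    by_contra h
    exact hzb (hx1 z hzY b hb h hxb)
  have hyz : G.Adj y z := by
    by_contra h
    exact hzb (hy1 z hzY b hb h hyb)
  have hK := hKILL2 V G X Y x b3 (x, b) (a3, b3)
    (fun h => hbb (congrArg Prod.snd h).symm) hN.hx hb hxb ha3 hb3 n3 (Or.inl rfl) (Or.inr rfl)
  exact ⟨x, z, hEK V G X Y x y b3 z k hN hX hY hk (by omega) h2 hb3 hzY hzb3 hxb3 hxz hyz
    (by omega)⟩

end Pool.NB

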