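import Pool.Agent.Work.MP_f6e869_nb.Interface

set_option autoImplicit false

namespace Pool.NB

open Pool.PE
open scoped Classical

/-- block E3c -/
theorem p_E3c (hCOM : S_COM) (hKILL2 : S_KILL2) (hEK : S_EK) : S_E3c := by
  intro V _ G X Y x y b0 k hNb hX hY hk hmis h2 hx1 hy1 hb hb0 hxb0
  -- another missing pair
  have hcard : 1 < ((X ×ˢ Y).filter (fun p => ¬ G.Adj p.1 p.2)).card := by
    have : mis G X Y = ((X ×ˢ Y).filter (fun p => ¬ G.Adj p.1 p.2)).card := rfl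
    omega
  obtain ⟨⟨a, b⟩, hab, hne⟩ := Finset.exists_mem_ne hcard (x, b0)
  rw [Finset.mem_filter, Finset.mem_product] at hab
  obtain ⟨⟨haX, hbY⟩, hnab⟩ := hab
  dsimp only at haX hbY hnab
  have hbb0 : b ≠ b0 := by
    rintro rfl
    exact hne (by rw [hb b hbY a haX x hNb.hx hnab hxb0])
  have hxb : G.Adj x b := by
    by_contra h
    exact hbb0 (hx1 b hbY b0 hb0 h hxb0)
  have c1 : (Y.filter fun b => ¬ G.Adj x b).card ≤ 1 := by
    refine Finset.card_le_one.2 (fun u hu w hw => ?_)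
    rw [Finset.mem_filter] at hu hw
    exact hx1 u hu.1 w hw.1 hu.2 hw.2
  have c2 : (Y.filter fun b => ¬ G.Adj y b).card ≤ 1 := by
    refine Finset.card_le_one.2 (fun u hu w hw => ?_)
    rw [Finset.mem_filter] at hu hw
    exact hy1 u hu.1 w hw.1 hu.2 hw.2
  obtain ⟨z, hzY, hzb, hxz, hyz⟩ := (hCOM V G X Y {b} x y hNb).2 (by
    rw [Finset.card_singleton]
    omega)
  rw [Finset.mem_singleton] at hzb
  have hkill := hKILL2 V G X Y x b (x, b0) (a, b)
    (fun h => hbb0 (congrArg Prod.snd h).symm) hNb.hx hb0 hxb0 haX hbY hnab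
    (Or.inl rfl) (Or.inr rfl)
  exact ⟨z, hEK V G X Y x y b z k hNb hX hY hk (by omega) h2 hbY hzY hzb hxb hxz hyz (by omega)⟩

end Pool.NB
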