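import Pool.Agent.Work.MP_f6e869_nb.Interface

/-!
# Block E3d: x and y complete to Y, every vertex of Y has at most one missing pair
-/

set_option autoImplicit false

namespace Pool.NB

open Pool.PE
open scoped Classical

theorem E3d_core (hKILL2 : S_KILL2) (hKILL1 : S_KILL1) (hPA1 : S_PA1) (hAPP : S_APP) (hP : S_P)
    (hGOOD : S_GOOD) (V : Type) [Fintype V] (G : SimpleGraph V) (X Y : Finset V) (x y : V) (k : ℕ)
    (hN : Nb G X Y x y) (hX : X.card = k) (hY : Y.card = k) (hk : 4 ≤ k) (hm : mis G X Y + 1 = k)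
    (hcx : ∀ b ∈ Y, G.Adj x b) (hcy : ∀ b ∈ Y, G.Adj y b) (a0 z a c a'' b b' : V)
    (ha0 : a0 ∈ X) (hz : z ∈ Y) (h0 : ¬ G.Adj a0 z) (ha : a ∈ X) (hc : c ∈ Y) (h1 : ¬ G.Adj a c)
    (ha'' : a'' ∈ X) (hb : b ∈ Y) (h2 : ¬ G.Adj a'' b) (hne : a ≠ a0) (hbc : b ≠ c) (hbz : b ≠ z)
    (haz : G.Adj a z) (hb' : b' ∈ Y) (hab' : G.Adj a b') (hb'z : b' ≠ z) (hb'b : b' ≠ b) :
    Pan G x z := by
  have hax : a ≠ x := fun h => h1 (h ▸ hcx c hc)
  have hay : a ≠ y := fun h => h1 (h ▸ hcy c hc)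
  have ha0x : a0 ≠ x := fun h => h0 (h ▸ hcx z hz)
  have hcard : Fintype.card V = k + k := by
    have h3 : (Finset.univ : Finset V) = X ∪ Y := by
      ext v
      simp [hN.cov v]
    rw [← Finset.card_univ, h3, Finset.card_union_of_disjoint hN.dis, hX, hY]
  have hdis1 : Disjoint (X.erase x) (Y.erase b) :=
    Finset.disjoint_of_subset_left (Finset.erase_subset _ _)
      (Finset.disjoint_of_subset_right (Finset.erase_subset _ _) hN.dis)
  have hpq : (a0, z) ≠ (a, c) := fun h => hne (Prod.ext_iff.1 h).1.symm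
  refine hGOOD V G X Y x y z hN hz (hcx z hz) (hcy z hz) (fun j hj hj2 => ?_) (fun j hj hj2 => ?_)
  · -- paths from y to z
    obtain ⟨i, rfl⟩ : ∃ i, j = i + 1 := ⟨j - 1, by omega⟩
    refine (hPA1 V G (X.erase x) (Y.erase b) y z).2 (X.erase x) Y (i + 1) (Finset.Subset.refl _)
      (Finset.erase_subset _ _) ?_
    refine hAPP V G (X.erase x) (Y.erase b) y z a b' i hdis1 (Finset.mem_erase.2 ⟨hax, ha⟩)
      (Finset.mem_erase.2 ⟨hbz.symm, hz⟩) hab'.symm haz ?_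
    have hyA : y ∈ (X.erase x).erase a :=
      Finset.mem_erase.2 ⟨hay.symm, Finset.mem_erase.2 ⟨hN.ne.symm, hN.hy⟩⟩
    have hbB : b' ∈ (Y.erase b).erase z :=
      Finset.mem_erase.2 ⟨hb'z, Finset.mem_erase.2 ⟨hb'b, hb'⟩⟩
    by_cases hi : i = 1
    · subst hi
      exact (hPA1 V G _ _ y b').1 hyA hbB (hcy b' hb')
    · have c1 : ((X.erase x).erase a).card = k - 2 := by
        rw [Finset.card_erase_of_mem (Finset.mem_erase.2 ⟨hax, ha⟩),
          Finset.card_erase_of_mem hN.hx, hX]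
        omega
      have c2 : ((Y.erase b).erase z).card = k - 2 := by
        rw [Finset.card_erase_of_mem (Finset.mem_erase.2 ⟨hbz.symm, hz⟩),
          Finset.card_erase_of_mem hb, hY]
        omega
      have m1 : mis G (X.erase x) (Y.erase b) + 1 ≤ mis G X Y :=
        (hKILL1 V G X Y).1 x b (a'', b) ha'' hb h2 (Or.inr rfl)
      have m2 : mis G ((X.erase x).erase a) ((Y.erase b).erase z) + 2 ≤
          mis G (X.erase x) (Y.erase b) :=
        hKILL2 V G (X.erase x) (Y.erase b) a z (a0, z) (a, c) hpq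
          (Finset.mem_erase.2 ⟨ha0x, ha0⟩) (Finset.mem_erase.2 ⟨hbz.symm, hz⟩) h0
          (Finset.mem_erase.2 ⟨hax, ha⟩) (Finset.mem_erase.2 ⟨hbc.symm, hc⟩) h1
          (Or.inr rfl) (Or.inl rfl)
      refine hP (k - 2) V G _ _ y b' ?_ c1 c2 (by omega) hyA hbB i (by omega) (by omega)
      exact Finset.disjoint_of_subset_left (Finset.erase_subset _ _)
        (Finset.disjoint_of_subset_right (Finset.erase_subset _ _) hdis1)
  · -- paths from x to z
    obtain ⟨i, rfl⟩ : ∃ i, j = i + 1 := ⟨j - 1, by omega⟩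
    refine hAPP V G X Y x z a b' i hN.dis ha hz hab'.symm haz ?_
    have hxA : x ∈ X.erase a := Finset.mem_erase.2 ⟨hax.symm, hN.hx⟩
    have hbB : b' ∈ Y.erase z := Finset.mem_erase.2 ⟨hb'z, hb'⟩
    by_cases hi : i = 1
    · subst hi
      exact (hPA1 V G _ _ x b').1 hxA hbB (hcx b' hb')
    · have c1 : (X.erase a).card = k - 1 := by
        rw [Finset.card_erase_of_mem ha, hX]
      have c2 : (Y.erase z).card = k - 1 := by
        rw [Finset.card_erase_of_mem hz, hY]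
      have m2 : mis G (X.erase a) (Y.erase z) + 2 ≤ mis G X Y :=
        hKILL2 V G X Y a z (a0, z) (a, c) hpq ha0 hz h0 ha hc h1 (Or.inr rfl) (Or.inl rfl)
      refine hP (k - 1) V G _ _ x b' ?_ c1 c2 (by omega) hxA hbB i (by omega) (by omega)
      exact Finset.disjoint_of_subset_left (Finset.erase_subset _ _)
        (Finset.disjoint_of_subset_right (Finset.erase_subset _ _) hN.dis)

theorem p_E3d (hKILL2 : S_KILL2) (hKILL1 : S_KILL1) (hPA1 : S_PA1) (hAPP : S_APP) (hP : S_P)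
    (hGOOD : S_GOOD) : S_E3d := by
  intro V _ G X Y x y k hN hX hY hk hm hcx hcy hdeg hone
  obtain ⟨M, hM⟩ : ∃ M : Finset (V × V),
    M = (X ×ˢ Y).filter (fun p => ¬ G.Adj p.1 p.2) := ⟨_, rfl⟩
  have hMc : M.card + 1 = k := by
    rw [hM]
    exact hm
  have hmem : ∀ p, p ∈ M ↔ (p.1 ∈ X ∧ p.2 ∈ Y) ∧ ¬ G.Adj p.1 p.2 := by
    intro p
    rw [hM, Finset.mem_filter, Finset.mem_product]
  obtain ⟨p0, hp0⟩ : M.Nonempty := by
    rw [← Finset.card_pos]
    omega
  obtain ⟨a0, z⟩ := p0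
  obtain ⟨⟨ha0, hz⟩, h0⟩ := (hmem _).1 hp0
  obtain ⟨p, hp, hpne⟩ : ∃ p ∈ M, p.1 ≠ a0 := by
    by_contra hcon
    push Not at hcon
    obtain ⟨n1, hn1, n2, hn2, hn12, e1, e2⟩ := hdeg a0 ha0
    have hsub : M ⊆ ({a0} : Finset V) ×ˢ ((Y.erase n1).erase n2) := by
      intro q hq
      obtain ⟨⟨hq1, hq2⟩, hq3⟩ := (hmem q).1 hq
      have hq4 := hcon q hq
      rw [Finset.mem_product]
      refine ⟨Finset.mem_singleton.2 hq4, Finset.mem_erase.2 ⟨?_, Finset.mem_erase.2 ⟨?_, hq2⟩⟩⟩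
      · intro h
        apply hq3
        rw [hq4, h]
        exact e2
      · intro h
        apply hq3
        rw [hq4, h]
        exact e1
    have h3 := Finset.card_le_card hsub
    rw [Finset.card_product, Finset.card_singleton, one_mul,
      Finset.card_erase_of_mem (Finset.mem_erase.2 ⟨hn12.symm, hn2⟩),
      Finset.card_erase_of_mem hn1, hY] at h3
    omega
  obtain ⟨a, c⟩ := p
  obtain ⟨⟨ha, hc⟩, h1⟩ := (hmem _).1 hp
  have hne : a ≠ a0 := hpne
  have haz : G.Adj a z := by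
    by_contra h
    exact hne (hone z hz a ha a0 ha0 h h0)
  have hcz : c ≠ z := fun h => h1 (h ▸ haz)
  by_cases hA : ∃ c' ∈ Y, c' ≠ c ∧ ¬ G.Adj a c'
  · obtain ⟨b, hb, hbc, hab⟩ := hA
    obtain ⟨n1, hn1, n2, hn2, hn12, e1, e2⟩ := hdeg a ha
    obtain ⟨b', hb', hab', hb'z⟩ : ∃ b' ∈ Y, G.Adj a b' ∧ b' ≠ z := by
      by_cases h : n1 = z
      · exact ⟨n2, hn2, e2, fun h' => hn12 (h.trans h'.symm)⟩
      · exact ⟨n1, hn1, e1, h⟩
    exact ⟨z, E3d_core hKILL2 hKILL1 hPA1 hAPP hP hGOOD V G X Y x y k hN hX hY hk hm hcx hcy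
      a0 z a c a b b' ha0 hz h0 ha hc h1 ha hb hab hne hbc (fun h => hab (h ▸ haz)) haz hb' hab'
      hb'z (fun h => hab (h ▸ hab'))⟩
  · push Not at hA
    obtain ⟨q, hq, hq'⟩ : ∃ q ∈ M, q ∉ ({(a0, z), (a, c)} : Finset (V × V)) := by
      apply Finset.exists_mem_notMem_of_card_lt_card
      have h3 : ({(a0, z), (a, c)} : Finset (V × V)).card ≤ 2 := Finset.card_le_two
      omega
    obtain ⟨a'', b⟩ := q
    obtain ⟨⟨ha'', hb⟩, h2⟩ := (hmem _).1 hq
    rw [Finset.mem_insert, Finset.mem_singleton, not_or] at hq'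
    have hbz : b ≠ z := by
      rintro rfl
      exact hq'.1 (by rw [hone b hb a'' ha'' a0 ha0 h2 h0])
    have hbc : b ≠ c := by
      rintro rfl
      exact hq'.2 (by rw [hone b hb a'' ha'' a ha h2 h1])
    obtain ⟨b', hb', hb''⟩ : ∃ b' ∈ Y, b' ∉ ({z, b, c} : Finset V) := by
      apply Finset.exists_mem_notMem_of_card_lt_card
      have h3 : ({z, b, c} : Finset V).card ≤ 3 := Finset.card_le_three
      omega
    rw [Finset.mem_insert, Finset.mem_insert, Finset.mem_singleton, not_or, not_or] at hb''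
    exact ⟨z, E3d_core hKILL2 hKILL1 hPA1 hAPP hP hGOOD V G X Y x y k hN hX hY hk hm hcx hcy
      a0 z a c a'' b b' ha0 hz h0 ha hc h1 ha'' hb h2 hne hbc hbz haz hb' (hA b' hb' hb''.2.2)
      hb''.1 hb''.2.1⟩

end Pool.NB
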