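import Pool.Agent.Work.MP_f6e869_nb.Interface

/-! Block EC of MP_f6e869_co (nearly bipartite graphs): the number of edges. -/

namespace Pool.NB

open Pool.PE
open scoped Classical

theorem p_EC : S_EC := by
  intro V _ G X Y x y h
  have hd : ∀ u, u ∈ X → u ∈ Y → False := fun u hu hu' =>
    Finset.disjoint_left.1 h.dis hu hu'
  set P := (X ×ˢ Y).filter (fun p => G.Adj p.1 p.2) with hP
  have hPm : ∀ a b, (a, b) ∈ P ↔ (a ∈ X ∧ b ∈ Y) ∧ G.Adj a b := by
    intro a b
    rw [hP, Finset.mem_filter, Finset.mem_product]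
  have h1 : G.edgeSet =
      insert s(x, y) ((P.image (fun p => s(p.1, p.2)) : Finset (Sym2 V)) : Set (Sym2 V)) := by
    ext e
    induction e using Sym2.ind with
    | _ u v =>
      rw [SimpleGraph.mem_edgeSet, Set.mem_insert_iff, Finset.mem_coe, Finset.mem_image]
      constructor
      · intro huv
        rcases h.cov u with hu | hu <;> rcases h.cov v with hv | hv
        · left
          rcases h.ind u hu v hv huv with ⟨rfl, rfl⟩ | ⟨rfl, rfl⟩
          · rfl
          · exact Sym2.eq_swap
        · right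
          exact ⟨(u, v), (hPm u v).2 ⟨⟨hu, hv⟩, huv⟩, rfl⟩
        · right
          exact ⟨(v, u), (hPm v u).2 ⟨⟨hv, hu⟩, huv.symm⟩, Sym2.eq_swap⟩
        · exact absurd huv (h.indY u hu v hv)
      · rintro (he | ⟨⟨a, b⟩, hp, he⟩)
        · rw [← SimpleGraph.mem_edgeSet, he, SimpleGraph.mem_edgeSet]
          exact h.adj
        · have := ((hPm a b).1 hp).2
          simp only at he
          rw [← SimpleGraph.mem_edgeSet, ← he, SimpleGraph.mem_edgeSet]
          exact this
  have h2 : s(x, y) ∉ ((P.image (fun p => s(p.1, p.2)) : Finset (Sym2 V)) : Set (Sym2 V)) := by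
    rw [Finset.mem_coe, Finset.mem_image]
    rintro ⟨⟨a, b⟩, hp, he⟩
    have hb := ((hPm a b).1 hp).1.2
    simp only [Sym2.eq_iff] at he
    rcases he with ⟨rfl, rfl⟩ | ⟨rfl, rfl⟩
    · exact hd _ h.hy hb
    · exact hd _ h.hx hb
  have h3 : (P.image (fun p => s(p.1, p.2))).card = P.card := by
    apply Finset.card_image_of_injOn
    rintro ⟨a, b⟩ hab ⟨c, d⟩ hcd he
    rw [Finset.mem_coe] at hab hcd
    have h4 := (hPm a b).1 hab
    have h5 := (hPm c d).1 hcd
    simp only [Sym2.eq_iff] at he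
    rcases he with ⟨rfl, rfl⟩ | ⟨rfl, rfl⟩
    · rfl
    · exact absurd h5.1.2 (fun h6 => hd _ h4.1.1 h6)
  have h6 : P.card + mis G X Y = X.card * Y.card := by
    rw [← Finset.card_product, mis, hP]
    exact Finset.card_filter_add_card_filter_not _
  rw [h1, Set.ncard_insert_of_notMem h2 (Finset.finite_toSet _), Set.ncard_coe_finset, h3]
  omega

end Pool.NB
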