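import Pool.Agent.Work.MP_f6e869_nb.Interface

namespace Pool.NB

open Pool.PE
open scoped Classical

theorem EK_card {V : Type} [Fintype V] {G : SimpleGraph V} {X Y : Finset V} {x y : V}
    (h : Nb G X Y x y) : Fintype.card V = X.card + Y.card := by
  have h1 : (Finset.univ : Finset V) = X ∪ Y := by
    ext v
    simp only [Finset.mem_univ, Finset.mem_union, true_iff]
    exact h.cov v
  rw [← Finset.card_univ, h1, Finset.card_union_of_disjoint h.dis]

theorem p_EK (hPA1 : S_PA1) (hPRE : S_PRE) (hP4 : S_P4) (hP : S_P) (hGOOD : S_GOOD) : S_EK := by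
  intro V _ G X Y x y b z k hN hX hY hk hm h2 hb hz hzb hxb hxz hyz hmis
  have hcard : Fintype.card V = 2 * k := by
    rw [EK_card hN, hX, hY]
    ring
  have hdis : Disjoint (X.erase x) (Y.erase b) :=
    Disjoint.mono (Finset.erase_subset _ _) (Finset.erase_subset _ _) hN.dis
  have hXc : (X.erase x).card = k - 1 := by
    rw [Finset.card_erase_of_mem hN.hx, hX]
  have hYc : (Y.erase b).card = k - 1 := by
    rw [Finset.card_erase_of_mem hb, hY]
  have hyX : y ∈ X.erase x := Finset.mem_erase.2 ⟨hN.ne.symm, hN.hy⟩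
  have hzY : z ∈ Y.erase b := Finset.mem_erase.2 ⟨hzb, hz⟩
  refine hGOOD V G X Y x y z hN hz hxz hyz ?_ ?_
  · intro j hj1 hj2
    have h1 := hP (k - 1) V G (X.erase x) (Y.erase b) y z hdis hXc hYc (by omega) hyX hzY j hj1
      (by omega)
    exact (hPA1 V G (X.erase x) (Y.erase b) y z).2 (X.erase x) Y j (Finset.Subset.refl _)
      (Finset.erase_subset _ _) h1
  · intro j hj1 hj2
    by_cases hj : j = 2
    · rw [hj]
      exact hP4 V G X Y x z k hN.dis hX hY (by omega) hm hN.hx hz ⟨b, hb, hzb.symm, hxb⟩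
        ⟨y, hN.hy, hN.ne.symm, hyz⟩
    · obtain ⟨i, rfl⟩ : ∃ i, j = i + 1 := ⟨j - 1, by omega⟩
      obtain ⟨a, haX, hax, hab⟩ : ∃ a ∈ X, a ≠ x ∧ G.Adj a b := by
        obtain ⟨a, ha, a', ha', hne, h3, h4⟩ := h2 b hb
        by_cases hax : a = x
        · exact ⟨a', ha', fun h => hne (hax.trans h.symm), h4⟩
        · exact ⟨a, ha, hax, h3⟩
      have h1 := hP (k - 1) V G (X.erase x) (Y.erase b) a z hdis hXc hYc (by omega)
        (Finset.mem_erase.2 ⟨hax, haX⟩) hzY i (by omega) (by omega)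
      exact hPRE V G X Y x z a b i hN.dis hN.hx hb hxb hab.symm h1

end Pool.NB
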