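import Pool.Agent.Work.MP_f6e869_nb.Interface

/-! Block EVE of the nearly bipartite theorem: all cases of `n = 2 k`. -/

set_option autoImplicit false

namespace Pool.NB

open Pool.PE
open scoped Classical

theorem p_EVE (hSYM : S_SYM) (hE12 : S_E12) (hE3a : S_E3a) (hE3b : S_E3b) (hE3c : S_E3c)
    (hE3d : S_E3d) : S_EVE := by
  intro V _ G X Y x y k hN hX hY hk hm h1 h2
  have hS : Nb G X Y y x := hSYM V G X Y x y hN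
  by_cases hm2 : mis G X Y + 2 ≤ k
  · obtain ⟨z, hz⟩ := hE12 V G X Y x y k hN hX hY hk hm2
    exact ⟨x, z, hz⟩
  have hm1 : mis G X Y + 1 = k := by omega
  by_cases hx : ∀ b ∈ Y, ∀ b' ∈ Y, ¬ G.Adj x b → ¬ G.Adj x b' → b = b'
  swap
  · push Not at hx
    obtain ⟨b1, hb1, b2, hb2, hn1, hn2, hne⟩ := hx
    obtain ⟨z, hz⟩ := hE3a V G X Y x y b1 b2 k hN hX hY hk hm1 h1 h2 hb1 hb2 hne hn1 hn2
    exact ⟨x, z, hz⟩
  by_cases hy : ∀ b ∈ Y, ∀ b' ∈ Y, ¬ G.Adj y b → ¬ G.Adj y b' → b = b'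
  swap
  · push Not at hy
    obtain ⟨b1, hb1, b2, hb2, hn1, hn2, hne⟩ := hy
    obtain ⟨z, hz⟩ := hE3a V G X Y y x b1 b2 k hS hX hY hk hm1 h1 h2 hb1 hb2 hne hn1 hn2
    exact ⟨y, z, hz⟩
  by_cases hb : ∀ b ∈ Y, ∀ a ∈ X, ∀ a' ∈ X, ¬ G.Adj a b → ¬ G.Adj a' b → a = a'
  swap
  · push Not at hb
    obtain ⟨b, hbY, a1, ha1, a2, ha2, hn1, hn2, hne⟩ := hb
    exact hE3b V G X Y x y b a1 a2 k hN hX hY hk hm1 h2 hx hy hbY ha1 ha2 hne hn1 hn2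
  by_cases hxc : ∀ b ∈ Y, G.Adj x b
  swap
  · push Not at hxc
    obtain ⟨b0, hb0, hn0⟩ := hxc
    obtain ⟨z, hz⟩ := hE3c V G X Y x y b0 k hN hX hY hk hm1 h2 hx hy hb hb0 hn0
    exact ⟨x, z, hz⟩
  by_cases hyc : ∀ b ∈ Y, G.Adj y b
  swap
  · push Not at hyc
    obtain ⟨b0, hb0, hn0⟩ := hyc
    obtain ⟨z, hz⟩ := hE3c V G X Y y x b0 k hS hX hY hk hm1 h2 hy hx hb hb0 hn0
    exact ⟨y, z, hz⟩
  obtain ⟨z, hz⟩ := hE3d V G X Y x y k hN hX hY hk hm1 hxc hyc h1 hb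
  exact ⟨x, z, hz⟩

end Pool.NB
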