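import Pool.Agent.Work.MP_f6e869_nb.Interface

/-!
Block HE (helper18).
-/

namespace Pool.NB

open Pool.PE
open scoped Classical

theorem HE_mod {V : Type} {G : SimpleGraph V} {n : ℕ} {c : ℕ → V} (h : Cyc G n c) (i : ℕ) :
    c i = c (i % n) := by
  have key : ∀ k i, c (i + n * k) = c i := by
    intro k
    induction k with
    | zero => intro i; simp
    | succ k ih =>
      intro i
      have e : i + n * (k + 1) = (i + n * k) + n := by ring
      rw [e, h.1, ih]
  conv_lhs => rw [← Nat.mod_add_div i n]
  exact key _ _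

theorem HE_inj {V : Type} {G : SimpleGraph V} {n : ℕ} {c : ℕ → V} (hn : 1 ≤ n) (h : Cyc G n c)
    {i j : ℕ} (he : c i = c j) : i % n = j % n := by
  rw [HE_mod h i, HE_mod h j] at he
  exact h.2.1 _ _ (Nat.mod_lt _ hn) (Nat.mod_lt _ hn) he

theorem HE_surj {V : Type} [Fintype V] {G : SimpleGraph V} {c : ℕ → V}
    (h : Cyc G (Fintype.card V) c) (v : V) : ∃ i, i < Fintype.card V ∧ c i = v := by
  have hb : Function.Bijective (fun i : Fin (Fintype.card V) => c i) := by
    refine (Fintype.bijective_iff_injective_and_card _).2 ⟨?_, by simp⟩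
    intro i j hij
    exact Fin.ext (h.2.1 _ _ i.2 j.2 hij)
  obtain ⟨i, hi⟩ := hb.2 v
  exact ⟨i, i.2, hi⟩

theorem p_HE : S_HE := by
  intro V _ G X Y x y c hN hn hc hXY
  set n := Fintype.card V with hnn
  have hn1 : 1 ≤ n := by omega
  have hYX : ∀ i, c i ∈ Y → c (i + 1) ∈ X := by
    intro i hi
    rcases hN.cov (c (i + 1)) with h | h
    · exact h
    · exact absurd (hc.2.2 i) (hN.indY _ hi _ h)
  -- counting
  set S1 := (Finset.range n).filter (fun i => c i ∈ Y) with hS1
  set S2 := (Finset.range n).filter (fun i => c (i + 1) ∈ X) with hS2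
  have hsub : S1 ⊆ S2 := by
    intro i hi
    rw [hS1, Finset.mem_filter] at hi
    rw [hS2, Finset.mem_filter]
    exact ⟨hi.1, hYX i hi.2⟩
  have c1 : S1.card = Y.card := by
    have e : S1.image c = Y := by
      ext v
      rw [Finset.mem_image]
      constructor
      · rintro ⟨i, hi, rfl⟩
        exact (Finset.mem_filter.mp hi).2
      · intro hv
        obtain ⟨i, hi, rfl⟩ := HE_surj hc v
        exact ⟨i, Finset.mem_filter.mpr ⟨Finset.mem_range.mpr hi, hv⟩, rfl⟩
    rw [← e, Finset.card_image_of_injOn]
    intro i hi j hj hij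
    exact hc.2.1 _ _ (Finset.mem_range.mp (Finset.mem_filter.mp hi).1)
      (Finset.mem_range.mp (Finset.mem_filter.mp hj).1) hij
  have c2 : S2.card = X.card := by
    have e : S2.image (fun i => c (i + 1)) = X := by
      ext v
      rw [Finset.mem_image]
      constructor
      · rintro ⟨i, hi, rfl⟩
        exact (Finset.mem_filter.mp hi).2
      · intro hv
        obtain ⟨j, hj, rfl⟩ := HE_surj hc v
        have hi : (j + n - 1) % n < n := Nat.mod_lt _ hn1
        have e1 : c ((j + n - 1) % n + 1) = c j := by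
          rw [HE_mod hc ((j + n - 1) % n + 1), HE_mod hc j]
          congr 1
          rw [Nat.mod_add_mod]
          have : j + n - 1 + 1 = j + n := by omega
          rw [this, Nat.add_mod_right]
        refine ⟨(j + n - 1) % n, Finset.mem_filter.mpr ⟨Finset.mem_range.mpr hi, ?_⟩, e1⟩
        rw [e1]
        exact hv
    rw [← e, Finset.card_image_of_injOn]
    intro i hi j hj hij
    have hi' := Finset.mem_range.mp (Finset.mem_filter.mp hi).1
    have hj' := Finset.mem_range.mp (Finset.mem_filter.mp hj).1
    have h1 : (i + 1) % n = (j + 1) % n := HE_inj hn1 hc hij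
    have h2 : i % n = j % n := Nat.ModEq.add_right_cancel' 1 h1
    rwa [Nat.mod_eq_of_lt hi', Nat.mod_eq_of_lt hj'] at h2
  have hS : S1 = S2 := Finset.eq_of_subset_of_card_le hsub (by rw [c1, c2, hXY])
  have hXY' : ∀ i, c i ∈ X → c (i + 1) ∈ Y := by
    intro i hi
    by_contra hno
    have hX : c (i + 1) ∈ X := (hN.cov _).resolve_right hno
    have h1 : i % n ∈ S2 := by
      rw [hS2, Finset.mem_filter]
      refine ⟨Finset.mem_range.mpr (Nat.mod_lt _ hn1), ?_⟩
      have : c (i % n + 1) = c (i + 1) := by
        rw [HE_mod hc (i % n + 1), HE_mod hc (i + 1), Nat.mod_add_mod]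
      rw [this]
      exact hX
    rw [← hS, hS1, Finset.mem_filter, ← HE_mod hc] at h1
    exact Finset.disjoint_left.mp hN.dis hi h1.2
  -- predecessor
  have hpred : ∀ i, c (i + (n - 1) + 1) = c i := by
    intro i
    have : i + (n - 1) + 1 = i + n := by omega
    rw [this, hc.1]
  have hne : ∀ i, c (i + 1) ≠ c (i + (n - 1)) := by
    intro i he
    have h1 : (i + 1) % n = (i + (n - 1)) % n := HE_inj hn1 hc he
    have h2 : 1 % n = (n - 1) % n := Nat.ModEq.add_left_cancel' i h1
    rw [Nat.mod_eq_of_lt (by omega), Nat.mod_eq_of_lt (by omega)] at h2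
    omega
  constructor
  · intro v hv
    obtain ⟨i, _, rfl⟩ := HE_surj hc v
    refine ⟨c (i + 1), hXY' i hv, c (i + (n - 1)), ?_, hne i, hc.2.2 i, ?_⟩
    · rcases hN.cov (c (i + (n - 1))) with h | h
      · exfalso
        have := hXY' _ h
        rw [hpred] at this
        exact Finset.disjoint_left.mp hN.dis hv this
      · exact h
    · have := hc.2.2 (i + (n - 1))
      rw [hpred] at this
      exact this.symm
  · intro v hv
    obtain ⟨i, _, rfl⟩ := HE_surj hc v
    refine ⟨c (i + 1), hYX i hv, c (i + (n - 1)), ?_, hne i, (hc.2.2 i).symm, ?_⟩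
    · rcases hN.cov (c (i + (n - 1))) with h | h
      · exact h
      · exfalso
        have := hYX _ h
        rw [hpred] at this
        exact Finset.disjoint_left.mp hN.dis this hv
    · have := hc.2.2 (i + (n - 1))
      rw [hpred] at this
      exact this

end Pool.NB
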