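import Pool.Agent.Work.MP_f6e869_nb.Interface

/-! MP_f6e869_co, second theorem, block HO. -/

set_option autoImplicit false

namespace Pool.NB

open Pool.PE
open scoped Classical

theorem HO_per {V : Type} {G : SimpleGraph V} {n : ℕ} {c : ℕ → V} (h : Cyc G n c) (i k : ℕ) :
    c (i + n * k) = c i := by
  induction k with
  | zero => simp
  | succ k ih => rw [Nat.mul_succ, ← Nat.add_assoc, h.1, ih]

theorem HO_mod {V : Type} {G : SimpleGraph V} {n : ℕ} {c : ℕ → V} (h : Cyc G n c) (i : ℕ) :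
    c (i % n) = c i := by
  have h1 := HO_per h (i % n) (i / n)
  rw [Nat.mod_add_div] at h1
  exact h1.symm

theorem HO_inj {V : Type} {G : SimpleGraph V} {n : ℕ} {c : ℕ → V} (h : Cyc G n c) (hn : 0 < n)
    {i j : ℕ} (hij : c i = c j) : i ≡ j [MOD n] :=
  h.2.1 _ _ (Nat.mod_lt _ hn) (Nat.mod_lt _ hn) (by rw [HO_mod h, HO_mod h, hij])

theorem HO_dvd {n m d : ℕ} (h : m ≡ m + d [MOD n]) : n ∣ d := by
  have h1 := (Nat.modEq_iff_dvd' (Nat.le_add_right m d)).1 h
  rwa [Nat.add_sub_cancel_left] at h1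

theorem HO_surj {V : Type} [Fintype V] {G : SimpleGraph V} {c : ℕ → V}
    (h : Cyc G (Fintype.card V) c) (v : V) : ∃ i, i < Fintype.card V ∧ c i = v := by
  have h1 : Function.Bijective (fun i : Fin (Fintype.card V) => c i) := by
    rw [Fintype.bijective_iff_injective_and_card]
    refine ⟨fun i j hij => Fin.ext (h.2.1 _ _ i.2 j.2 hij), by simp⟩
  obtain ⟨i, hi⟩ := h1.2 v
  exact ⟨i, i.2, hi⟩

theorem p_HO : S_HO := by
  intro V _ G X Y x y c hNb h4 hc hXY
  have hn : 0 < Fintype.card V := by omega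
  have hnd : ∀ d, 1 ≤ d → d ≤ 3 → ¬ Fintype.card V ∣ d := by
    intro d h1 h3 hd
    have := Nat.le_of_dvd h1 hd
    omega
  -- every vertex is in the middle
  have hmid : ∀ v : V, ∃ m, c (m + 1) = v := by
    intro v
    obtain ⟨i, -, hi⟩ := HO_surj hc v
    refine ⟨i + Fintype.card V - 1, ?_⟩
    rw [Nat.sub_add_cancel (by omega), hc.1, hi]
  have hne : ∀ m, c m ≠ c (m + 2) := fun m h =>
    hnd 2 (by norm_num) (by norm_num) (HO_dvd (HO_inj hc hn h))
  -- neighbours of the vertices of `Y`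
  have hYX : ∀ v ∈ Y, ∀ u, G.Adj v u → u ∈ X := by
    intro v hv u huv
    rcases hNb.cov u with h | h
    · exact h
    · exact absurd huv (hNb.indY v hv u h)
  refine ⟨?_, ?_, ?_⟩
  · intro v hv hvx hvy
    obtain ⟨m, rfl⟩ := hmid v
    have hXY' : ∀ u, G.Adj (c (m + 1)) u → u ∈ Y := by
      intro u hu
      rcases hNb.cov u with h | h
      · rcases hNb.ind _ hv u h hu with h1 | h1
        · exact absurd h1.1 hvx
        · exact absurd h1.1 hvy
      · exact h
    exact ⟨c m, hXY' _ (hc.2.2 m).symm, c (m + 2), hXY' _ (hc.2.2 (m + 1)), hne m,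
      (hc.2.2 m).symm, hc.2.2 (m + 1)⟩
  · intro v hv
    obtain ⟨m, rfl⟩ := hmid v
    exact ⟨c m, hYX _ hv _ (hc.2.2 m).symm, c (m + 2), hYX _ hv _ (hc.2.2 (m + 1)), hne m,
      hc.2.2 m, (hc.2.2 (m + 1)).symm⟩
  · -- the cycle uses the edge `xy`
    obtain ⟨j, hj1, hj2⟩ : ∃ j, c j ∈ X ∧ c (j + 1) ∈ X := by
      by_contra hcon
      push Not at hcon
      choose idx hidx1 hidx2 using HO_surj hc
      have h1 : X.card ≤ Y.card := by
        refine Finset.card_le_card_of_injOn (fun v => c (idx v + 1)) ?_ ?_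
        · intro v hv
          have h2 := hcon (idx v) (by rw [hidx2]; exact hv)
          rcases hNb.cov (c (idx v + 1)) with h | h
          · exact absurd h h2
          · exact h
        · intro v _ v' _ hvv
          have h2 : idx v + 1 ≡ idx v' + 1 [MOD Fintype.card V] := HO_inj hc hn hvv
          have h3 : idx v ≡ idx v' [MOD Fintype.card V] := Nat.ModEq.add_right_cancel' 1 h2
          have h4 : idx v = idx v' := by
            have h5 : idx v % Fintype.card V = idx v' % Fintype.card V := h3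
            rwa [Nat.mod_eq_of_lt (hidx1 v), Nat.mod_eq_of_lt (hidx1 v')] at h5
          rw [← hidx2 v, ← hidx2 v', h4]
      omega
    intro v hv
    obtain ⟨m, rfl⟩ := hmid v
    by_contra hcon
    push Not at hcon
    have hA : ∀ a, a ∈ X → G.Adj a (c (m + 1)) → a = x ∨ a = y := by
      intro a ha hadj
      by_contra h
      push Not at h
      exact hcon a ha h.1 h.2 hadj
    have a1 := hA (c m) (hYX _ hv _ (hc.2.2 m).symm) (hc.2.2 m)
    have a2 := hA (c (m + 2)) (hYX _ hv _ (hc.2.2 (m + 1))) (hc.2.2 (m + 1)).symm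
    have a3 := hNb.ind _ hj1 _ hj2 (hc.2.2 j)
    have hB : (c j = c m ∧ c (j + 1) = c (m + 2)) ∨ (c j = c (m + 2) ∧ c (j + 1) = c m) := by
      have h1 := hne m
      rcases a1 with a1 | a1 <;> rcases a2 with a2 | a2 <;> rcases a3 with a3 | a3
      · exact absurd (a1.trans a2.symm) h1
      · exact absurd (a1.trans a2.symm) h1
      · exact Or.inl ⟨a3.1.trans a1.symm, a3.2.trans a2.symm⟩
      · exact Or.inr ⟨a3.1.trans a2.symm, a3.2.trans a1.symm⟩
      · exact Or.inr ⟨a3.1.trans a2.symm, a3.2.trans a1.symm⟩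
      · exact Or.inl ⟨a3.1.trans a1.symm, a3.2.trans a2.symm⟩
      · exact absurd (a1.trans a2.symm) h1
      · exact absurd (a1.trans a2.symm) h1
    rcases hB with ⟨h1, h2⟩ | ⟨h1, h2⟩
    · have e1 := (HO_inj hc hn h1).add_right 1
      have e2 := HO_inj hc hn h2
      have e3 : m + 1 ≡ (m + 1) + 1 [MOD Fintype.card V] := e1.symm.trans e2
      exact hnd 1 (by norm_num) (by norm_num) (HO_dvd e3)
    · have e1 := (HO_inj hc hn h1).add_right 1
      have e2 := HO_inj hc hn h2
      have e3 : m ≡ m + 3 [MOD Fintype.card V] := e2.symm.trans e1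
      exact hnd 3 (by norm_num) (by norm_num) (HO_dvd e3)

end Pool.NB
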