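import Pool.Agent.Work.MP_f6e869_nb.Interface

/-! MP_f6e869_co, block KILL1 (helper64) -/

namespace Pool.NB

open Pool.PE
open scoped Classical

theorem KILL1_mono {V : Type} (G : SimpleGraph V) {A B A' B' : Finset V} (hA : A' ⊆ A)
    (hB : B' ⊆ B) : mis G A' B' ≤ mis G A B := by
  unfold mis
  apply Finset.card_le_card
  intro p hp
  rw [Finset.mem_filter, Finset.mem_product] at hp ⊢
  exact ⟨⟨hA hp.1.1, hB hp.1.2⟩, hp.2⟩

theorem KILL1_lt {V : Type} (G : SimpleGraph V) {A B A' B' : Finset V} (hA : A' ⊆ A)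
    (hB : B' ⊆ B) (p : V × V) (h1 : p.1 ∈ A) (h2 : p.2 ∈ B) (h3 : ¬ G.Adj p.1 p.2)
    (h4 : p.1 ∉ A' ∨ p.2 ∉ B') : mis G A' B' + 1 ≤ mis G A B := by
  unfold mis
  rw [Nat.add_one_le_iff]
  apply Finset.card_lt_card
  rw [Finset.ssubset_iff_of_subset]
  · refine ⟨p, ?_, ?_⟩
    · rw [Finset.mem_filter, Finset.mem_product]
      exact ⟨⟨h1, h2⟩, h3⟩
    · intro hp
      rw [Finset.mem_filter, Finset.mem_product] at hp
      rcases h4 with h4 | h4
      · exact h4 hp.1.1
      · exact h4 hp.1.2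
  · intro q hq
    rw [Finset.mem_filter, Finset.mem_product] at hq ⊢
    exact ⟨⟨hA hq.1.1, hB hq.1.2⟩, hq.2⟩

theorem p_KILL1 : S_KILL1 := by
  intro V G A B
  refine ⟨?_, ?_, ?_⟩
  · intro a b p h1 h2 h3 h4
    refine KILL1_lt G (Finset.erase_subset _ _) (Finset.erase_subset _ _) p h1 h2 h3 ?_
    rcases h4 with h4 | h4
    · left
      rw [h4]
      exact Finset.notMem_erase _ _
    · right
      rw [h4]
      exact Finset.notMem_erase _ _
  · intro a b ha hb hab
    exact KILL1_lt G (Finset.erase_subset _ _) (Finset.Subset.refl _) (a, b) ha hb hab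
      (Or.inl (Finset.notMem_erase _ _))
  · intro A' B' hA hB
    exact KILL1_mono G hA hB

end Pool.NB
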