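import Pool.Agent.Work.MP_f6e869_nb.Interface

namespace Pool.NB

open scoped Classical in
theorem p_KILL2 : S_KILL2 := by
  intro V G A B a b p q hpq hp1 hp2 hpn hq1 hq2 hqn hpa hqa
  unfold mis
  set S := ((A.erase a ×ˢ B.erase b).filter (fun p => ¬ G.Adj p.1 p.2)) with hS
  have hout : ∀ r : V × V, (r.1 = a ∨ r.2 = b) → r ∉ S := by
    intro r hr h
    rw [hS] at h
    simp only [Finset.mem_filter, Finset.mem_product, Finset.mem_erase] at h
    rcases hr with h1 | h1
    · exact h.1.1.1 h1
    · exact h.1.2.1 h1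
  have hp := hout p hpa
  have hq := hout q hqa
  have hq' : q ∉ insert p S := by
    rw [Finset.mem_insert]
    rintro (h | h)
    · exact hpq h.symm
    · exact hq h
  have hc : (insert q (insert p S)).card = S.card + 2 := by
    rw [Finset.card_insert_of_notMem hq', Finset.card_insert_of_notMem hp]
  rw [← hc]
  apply Finset.card_le_card
  intro r hr
  rw [Finset.mem_insert, Finset.mem_insert] at hr
  rcases hr with h | h | h
  · rw [h]; simp only [Finset.mem_filter, Finset.mem_product]; exact ⟨⟨hq1, hq2⟩, hqn⟩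
  · rw [h]; simp only [Finset.mem_filter, Finset.mem_product]; exact ⟨⟨hp1, hp2⟩, hpn⟩
  · rw [hS] at h
    simp only [Finset.mem_filter, Finset.mem_product, Finset.mem_erase] at h ⊢
    exact ⟨⟨h.1.1.2, h.1.2.2⟩, h.2⟩

end Pool.NB
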