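import Pool.Agent.Work.MP_f6e869_nb.Interface

/-! Block NB of MP_f6e869_co: the assembly (helper12). -/

namespace Pool.NB

open Pool.PE
open scoped Classical

theorem NB_card {V : Type} [Fintype V] (X Y : Finset V) (hd : Disjoint X Y)
    (hc : ∀ v, v ∈ X ∨ v ∈ Y) : X.card + Y.card = Fintype.card V := by
  rw [← Finset.card_union_of_disjoint hd]
  have : X ∪ Y = Finset.univ := by
    ext v
    simp [hc v]
  rw [this, Finset.card_univ]

theorem p_NB (hHC : Pool.PE.S_HC) (hSET : S_SET) (hXX : S_XX) (hEC : S_EC) (hHE : S_HE)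
    (hHO : S_HO) (hODD : S_ODD) (hEVE : S_EVE) : S_NB := by
  intro V _ _ G hn hham he hbip hex
  obtain ⟨x, y, hxy, hdel⟩ := hex
  obtain ⟨c, hc⟩ := hHC V G (by omega) hham
  obtain ⟨X, Y, hN⟩ := hSET V G x y hxy hbip hdel
  have hcard := NB_card X Y hN.dis hN.cov
  have hec := hEC V G X Y x y hN
  rcases hXX V G X Y x y c hN (by omega) hc with h | h
  · left
    obtain ⟨h1, h2⟩ := hHE V G X Y x y c hN (by omega) hc h
    have hk : 4 ≤ Y.card := by omega
    obtain ⟨j, hj⟩ : ∃ j, Y.card = j + 1 := ⟨Y.card - 1, by omega⟩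
    have hsq : (Fintype.card V - 1) ^ 2 / 4 = j * (j + 1) := by
      have h3 : Fintype.card V - 1 = 2 * j + 1 := by omega
      rw [h3]
      have h4 : (2 * j + 1) ^ 2 = 4 * (j * (j + 1)) + 1 := by ring
      rw [h4]
      omega
    rw [hsq] at he
    rw [h, hj] at hec
    have h5 : (j + 1) * (j + 1) = j * (j + 1) + j + 1 := by ring
    rw [h5] at hec
    refine hEVE V G X Y x y Y.card hN h rfl hk ?_ h1 h2
    omega
  · obtain ⟨h1, -, h3⟩ := hHO V G X Y x y c hN (by omega) hc h
    have hk : 3 ≤ Y.card := by omega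
    have hsq : (Fintype.card V - 1) ^ 2 / 4 = Y.card * Y.card := by
      have h4 : Fintype.card V - 1 = 2 * Y.card := by omega
      rw [h4]
      have h5 : (2 * Y.card) ^ 2 = 4 * (Y.card * Y.card) := by ring
      rw [h5]
      omega
    rw [hsq] at he
    rw [h] at hec
    have h6 : (Y.card + 1) * Y.card = Y.card * Y.card + Y.card := by ring
    rw [h6] at hec
    rcases hODD V G X Y x y Y.card hN h rfl hk (by omega) h1 h3 with h7 | h7
    · exact Or.inl h7
    · exact Or.inr ⟨Y.card, by omega, h7⟩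

end Pool.NB
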