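import Pool.Agent.Work.MP_f6e869_nb.Interface

/-!
Block O1 (helper4).
-/

namespace Pool.NB

open Pool.PE
open scoped Classical

theorem O1_card {V : Type} [Fintype V] {G : SimpleGraph V} {X Y : Finset V} {x y : V}
    (h : Nb G X Y x y) : Fintype.card V = X.card + Y.card := by
  have h1 : X ∪ Y = Finset.univ := by
    ext v
    simp only [Finset.mem_union, Finset.mem_univ, iff_true]
    exact h.cov v
  rw [← Finset.card_union_of_disjoint h.dis, h1, Finset.card_univ]

theorem p_O1 (hCOM : S_COM) (hP : S_P) (hKILL1 : S_KILL1) (hPA1 : S_PA1) (hGOOD : S_GOOD) :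
    S_O1 := by
  intro V _ G X Y x y k hN hX hY hk hm
  have hcard := O1_card hN
  have hcom := hCOM V G X Y ∅ x y hN
  obtain ⟨z, hz, -, hxz, hyz⟩ := hcom.2 (by
    have := hcom.1
    rw [Finset.card_empty]
    omega)
  have hd1 : Disjoint (X.erase x) Y := Finset.disjoint_of_subset_left (Finset.erase_subset _ _)
    hN.dis
  have hd2 : Disjoint (X.erase y) Y := Finset.disjoint_of_subset_left (Finset.erase_subset _ _)
    hN.dis
  have hm1 := (hKILL1 V G X Y).2.2 (X.erase x) Y (Finset.erase_subset _ _) (Finset.Subset.refl _)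
  have hm2 := (hKILL1 V G X Y).2.2 (X.erase y) Y (Finset.erase_subset _ _) (Finset.Subset.refl _)
  have hc1 : (X.erase x).card = k := by
    rw [Finset.card_erase_of_mem hN.hx, hX]
    rfl
  have hc2 : (X.erase y).card = k := by
    rw [Finset.card_erase_of_mem hN.hy, hX]
    rfl
  refine ⟨z, hGOOD V G X Y x y z hN hz hxz hyz ?_ ?_⟩
  · intro j hj hj2
    exact hP k V G (X.erase x) Y y z hd1 hc1 hY (by omega)
      (Finset.mem_erase.2 ⟨hN.ne.symm, hN.hy⟩) hz j hj (by omega)
  · intro j hj hj2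
    have h1 := hP k V G (X.erase y) Y x z hd2 hc2 hY (by omega)
      (Finset.mem_erase.2 ⟨hN.ne, hN.hx⟩) hz j hj (by omega)
    exact (hPA1 V G (X.erase y) Y x z).2 X Y j (Finset.erase_subset _ _) (Finset.Subset.refl _) h1

end Pool.NB
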