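import Pool.Agent.Work.MP_f6e869_nb.Interface

/-!
Block O2 (helper39).
-/

namespace Pool.NB

open Pool.PE
open scoped Classical

theorem p_O2 (hCOM : S_COM) (hP : S_P) (hKILL1 : S_KILL1) (hPA1 : S_PA1) (hGOOD : S_GOOD) :
    S_O2 := by
  intro V _ G X Y x y w b b' k hN hX hY hk hm hb hxb hw hwx hb' hwb'
  have hV : Fintype.card V = 2 * k + 1 := by
    have h1 : (Finset.univ : Finset V) = X ∪ Y := by
      ext v
      simp only [Finset.mem_univ, Finset.mem_union, true_iff]
      exact hN.cov v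
    rw [← Finset.card_univ, h1, Finset.card_union_of_disjoint hN.dis, hX, hY]
    omega
  obtain ⟨c1, c2⟩ := hCOM V G X Y ∅ x y hN
  obtain ⟨z, hz, _, hxz, hyz⟩ := c2 (by
    rw [Finset.card_empty]
    omega)
  have hdis : ∀ u, Disjoint (X.erase u) Y := fun u =>
    Finset.disjoint_of_subset_left (Finset.erase_subset u X) hN.dis
  refine ⟨z, hGOOD V G X Y x y z hN hz hxz hyz ?_ ?_⟩
  · intro j hj hj2
    have h1 := (hKILL1 V G X Y).2.1 x b hN.hx hb hxb
    refine hP k V G (X.erase x) Y y z (hdis x) ?_ hY (by omega)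
      (Finset.mem_erase.2 ⟨hN.ne.symm, hN.hy⟩) hz j hj (by omega)
    rw [Finset.card_erase_of_mem hN.hx, hX]
    rfl
  · intro j hj hj2
    have h1 := (hKILL1 V G X Y).2.1 w b' hw hb' hwb'
    refine (hPA1 V G (X.erase w) Y x z).2 X Y j (Finset.erase_subset w X) (Finset.Subset.refl Y) ?_
    refine hP k V G (X.erase w) Y x z (hdis w) ?_ hY (by omega)
      (Finset.mem_erase.2 ⟨hwx.symm, hN.hx⟩) hz j hj (by omega)
    rw [Finset.card_erase_of_mem hw, hX]
    rfl

end Pool.NB
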