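import Pool.Agent.Work.MP_f6e869_nb.Interface

namespace Pool.NB

open Pool.PE
open scoped Classical

theorem O3_enum {V : Type} (S : Finset V) (k : ℕ) (hS : S.card = k) (hk : 0 < k) (v : V)
    (hv : v ∈ S) : ∃ f : Fin k → V, Function.Injective f ∧ (∀ i, f i ∈ S) ∧
      (∀ w ∈ S, ∃ i, f i = w) ∧ f ⟨0, hk⟩ = v := by
  let e : S ≃ Fin k := Finset.equivFinOfCardEq hS
  let s : Fin k ≃ Fin k := Equiv.swap ⟨0, hk⟩ (e ⟨v, hv⟩)
  let g : Fin k ≃ S := s.trans e.symm
  refine ⟨fun i => (g i : V), ?_, ?_, ?_, ?_⟩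
  · intro i j hij
    exact g.injective (Subtype.ext hij)
  · intro i
    exact (g i).2
  · intro w hw
    exact ⟨g.symm ⟨w, hw⟩, by simp⟩
  · show ((e.symm (Equiv.swap ⟨0, hk⟩ (e ⟨v, hv⟩) ⟨0, hk⟩) : S) : V) = v
    rw [Equiv.swap_apply_left, Equiv.symm_apply_apply]

theorem O3_one {V : Type} (G : SimpleGraph V) (X Y : Finset V) (x : V) (k : ℕ)
    (hx : x ∈ X) (hY : Y.card = k) (hm : mis G X Y + 1 = k)
    (h : ∀ w ∈ X, w ≠ x → ∀ b ∈ Y, G.Adj w b) :
    ∃ z0 ∈ Y, G.Adj x z0 ∧ ∀ b ∈ Y, G.Adj x b → b = z0 := by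
  have e1 : mis G X Y = (Y.filter (fun b => ¬ G.Adj x b)).card := by
    have : ((X ×ˢ Y).filter (fun p => ¬ G.Adj p.1 p.2)) =
        ({x} : Finset V) ×ˢ (Y.filter (fun b => ¬ G.Adj x b)) := by
      ext ⟨a, b⟩
      simp only [Finset.mem_filter, Finset.mem_product, Finset.mem_singleton]
      constructor
      · rintro ⟨⟨ha, hb⟩, hab⟩
        have hax : a = x := by
          by_contra hne
          exact hab (h a ha hne b hb)
        subst hax
        exact ⟨rfl, hb, hab⟩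
      · rintro ⟨rfl, hb, hab⟩
        exact ⟨⟨hx, hb⟩, hab⟩
    unfold mis
    rw [this, Finset.card_product, Finset.card_singleton, one_mul]
  have e2 : (Y.filter (fun b => G.Adj x b)).card + (Y.filter (fun b => ¬ G.Adj x b)).card
      = Y.card := Finset.card_filter_add_card_filter_not (s := Y) (fun b => G.Adj x b)
  have e3 : (Y.filter (fun b => G.Adj x b)).card = 1 := by omega
  obtain ⟨z0, hz0⟩ := Finset.card_eq_one.1 e3
  have hz : z0 ∈ Y.filter (fun b => G.Adj x b) := by rw [hz0]; exact Finset.mem_singleton_self _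
  refine ⟨z0, (Finset.mem_filter.1 hz).1, (Finset.mem_filter.1 hz).2, fun b hb hxb => ?_⟩
  have : b ∈ Y.filter (fun b => G.Adj x b) := Finset.mem_filter.2 ⟨hb, hxb⟩
  rw [hz0] at this
  exact Finset.mem_singleton.1 this

theorem p_O3 : S_O3 := by
  intro V _ G X Y x y k hN hXk hYk hk hm h
  obtain ⟨z0, hz0, hxz0, huniq⟩ := O3_one G X Y x k hN.hx hYk hm h
  have hk0 : 0 < k := by omega
  have hXe : (X.erase x).card = k := by
    rw [Finset.card_erase_of_mem hN.hx, hXk]; rfl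
  have hye : y ∈ X.erase x := Finset.mem_erase.2 ⟨hN.ne.symm, hN.hy⟩
  obtain ⟨f, hf, hfm, hfs, hf0⟩ := O3_enum (X.erase x) k hXe hk0 y hye
  obtain ⟨g, hg, hgm, hgs, hg0⟩ := O3_enum Y k hYk hk0 z0 hz0
  have hfX : ∀ i, f i ∈ X := fun i => (Finset.mem_erase.1 (hfm i)).2
  have hfx : ∀ i, f i ≠ x := fun i => (Finset.mem_erase.1 (hfm i)).1
  have hdis : ∀ a, a ∈ X → a ∈ Y → False := fun a ha hb =>
    (Finset.disjoint_left.1 hN.dis) ha hb
  let φ : Option (Fin k ⊕ Fin k) → V := fun o =>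
    match o with
    | none => x
    | some (Sum.inl i) => f i
    | some (Sum.inr j) => g j
  have hinj : Function.Injective φ := by
    intro a b hab
    rcases a with _ | a | a <;> rcases b with _ | b | b
    · rfl
    · exact absurd (show f b = x from hab.symm) (hfx b)
    · exact (hdis x hN.hx ((show x = g b from hab) ▸ hgm b)).elim
    · exact absurd (show f a = x from hab) (hfx a)
    · rw [hf (show f a = f b from hab)]
    · exact (hdis (f a) (hfX a) ((show f a = g b from hab) ▸ hgm b)).elim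
    · exact (hdis x hN.hx ((show g a = x from hab) ▸ hgm a)).elim
    · exact (hdis (f b) (hfX b) ((show g a = f b from hab) ▸ hgm a)).elim
    · rw [hg (show g a = g b from hab)]
  have hsurj : Function.Surjective φ := by
    intro v
    rcases hN.cov v with hv | hv
    · by_cases hvx : v = x
      · exact ⟨none, hvx.symm⟩
      · obtain ⟨i, hi⟩ := hfs v (Finset.mem_erase.2 ⟨hvx, hv⟩)
        exact ⟨some (Sum.inl i), hi⟩
    · obtain ⟨i, hi⟩ := hgs v hv
      exact ⟨some (Sum.inr i), hi⟩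
  have hr1 : ∀ a b : Option (Fin k ⊕ Fin k), ((∃ i j, a = some (Sum.inl i) ∧ b = some (Sum.inr j)) ∨
    (a = none ∧ ∃ i : Fin k, i.val = 0 ∧ (b = some (Sum.inl i) ∨ b = some (Sum.inr i)))) →
      G.Adj (φ a) (φ b) := by
    intro a b hab
    rcases hab with ⟨i, j, rfl, rfl⟩ | ⟨rfl, i, hi, rfl | rfl⟩
    · exact h (f i) (hfX i) (hfx i) (g j) (hgm j)
    · have : i = ⟨0, hk0⟩ := Fin.ext hi
      subst this
      show G.Adj x (f ⟨0, hk0⟩)
      rw [hf0]; exact hN.adj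
    · have : i = ⟨0, hk0⟩ := Fin.ext hi
      subst this
      show G.Adj x (g ⟨0, hk0⟩)
      rw [hg0]; exact hxz0
  have hxf : ∀ i, G.Adj x (f i) → i.val = 0 := by
    intro i hi
    rcases hN.ind x hN.hx (f i) (hfX i) hi with ⟨-, h2⟩ | ⟨h1, -⟩
    · have : i = ⟨0, hk0⟩ := hf (h2.trans hf0.symm)
      rw [this]
    · exact absurd h1 hN.ne
  have hxg : ∀ i, G.Adj x (g i) → i.val = 0 := by
    intro i hi
    have : i = ⟨0, hk0⟩ := hg ((huniq (g i) (hgm i) hi).trans hg0.symm)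
    rw [this]
  have hr2 : ∀ a b : Option (Fin k ⊕ Fin k), G.Adj (φ a) (φ b) →
      ((∃ i j, a = some (Sum.inl i) ∧ b = some (Sum.inr j)) ∨
    (a = none ∧ ∃ i : Fin k, i.val = 0 ∧ (b = some (Sum.inl i) ∨ b = some (Sum.inr i)))) ∨
      ((∃ i j, b = some (Sum.inl i) ∧ a = some (Sum.inr j)) ∨
    (b = none ∧ ∃ i : Fin k, i.val = 0 ∧ (a = some (Sum.inl i) ∨ a = some (Sum.inr i)))) := by
    intro a b hab
    rcases a with _ | a | a <;> rcases b with _ | b | b
    · exact absurd hab (G.loopless.irrefl x)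
    · exact Or.inl (Or.inr ⟨rfl, b, hxf b hab, Or.inl rfl⟩)
    · exact Or.inl (Or.inr ⟨rfl, b, hxg b hab, Or.inr rfl⟩)
    · exact Or.inr (Or.inr ⟨rfl, a, hxf a (G.adj_symm hab), Or.inl rfl⟩)
    · rcases hN.ind (f a) (hfX a) (f b) (hfX b) hab with ⟨h1, -⟩ | ⟨-, h2⟩
      · exact absurd h1 (hfx a)
      · exact absurd h2 (hfx b)
    · exact Or.inl (Or.inl ⟨a, b, rfl, rfl⟩)
    · exact Or.inr (Or.inr ⟨rfl, a, hxg a (G.adj_symm hab), Or.inr rfl⟩)
    · exact Or.inr (Or.inl ⟨b, a, rfl, rfl⟩)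
    · exact absurd hab (hN.indY (g a) (hgm a) (g b) (hgm b))
  let e : Option (Fin k ⊕ Fin k) ≃ V := Equiv.ofBijective φ ⟨hinj, hsurj⟩
  have hiso : (BT k) ≃g G := ⟨e, by
    intro a b
    show G.Adj (φ a) (φ b) ↔ (BT k).Adj a b
    unfold BT
    rw [SimpleGraph.fromRel_adj]
    constructor
    · intro hab
      refine ⟨?_, hr2 a b hab⟩
      rintro rfl
      exact G.loopless.irrefl _ hab
    · rintro ⟨-, hab | hab⟩
      · exact hr1 a b hab
      · exact G.adj_symm (hr1 b a hab)⟩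
  exact ⟨hiso.symm⟩

end Pool.NB
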