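import Pool.Agent.Work.MP_f6e869_nb.Interface

/-! Block O4a. -/

set_option autoImplicit false

namespace Pool.NB

open Pool.PE
open scoped Classical

theorem O4a_card {V : Type} [Fintype V] {G : SimpleGraph V} {X Y : Finset V} {x y : V}
    (h : Nb G X Y x y) : Fintype.card V = X.card + Y.card := by
  have h1 : X ∪ Y = Finset.univ := by
    ext v
    simp only [Finset.mem_union, Finset.mem_univ, iff_true]
    exact h.cov v
  rw [← Finset.card_union_of_disjoint h.dis, h1, Finset.card_univ]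

theorem p_O4a (hKILL2 : S_KILL2) (hKILL1 : S_KILL1) (hPA1 : S_PA1) (hPRE : S_PRE) (hAPP : S_APP)
    (hP : S_P) (hGOOD : S_GOOD) : S_O4a := by
  intro V _ G X Y x y b a1 a2 k hN hX hY hk hmis hx hy h1 h3 hb ha1 ha2 hne hn1 hn2
  have hcard : Fintype.card V = 2 * k + 1 := by
    rw [O4a_card hN]
    omega
  have ha1x : a1 ≠ x := by
    rintro rfl
    exact hn1 (hx b hb)
  have ha1y : a1 ≠ y := by
    rintro rfl
    exact hn1 (hy b hb)
  have ha2x : a2 ≠ x := by
    rintro rfl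
    exact hn2 (hx b hb)
  obtain ⟨z, hz⟩ : ∃ z, z ∈ Y.erase b := by
    apply Finset.card_pos.1
    rw [Finset.card_erase_of_mem hb]
    omega
  obtain ⟨hzb, hzY⟩ := Finset.mem_erase.1 hz
  have hdA : ∀ A B : Finset V, A ⊆ X → B ⊆ Y → Disjoint A B := fun A B hA hB =>
    Finset.disjoint_of_subset_left hA (Finset.disjoint_of_subset_right hB hN.dis)
  refine ⟨z, hGOOD V G X Y x y z hN hzY (hx z hzY) (hy z hzY) ?_ ?_⟩
  · intro j hj2 hj
    have hyA : y ∈ X.erase x := Finset.mem_erase.2 ⟨hN.ne.symm, hN.hy⟩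
    have hd : Disjoint (X.erase x) Y := hdA _ _ (Finset.erase_subset _ _) (Finset.Subset.refl _)
    rcases Nat.lt_or_ge j 3 with hj3 | hj3
    · obtain rfl : j = 2 := by omega
      obtain ⟨a, haX, hax, hay, haz⟩ := h3 z hzY
      obtain ⟨c, hc, c', hc', hcc, hac, hac'⟩ := h1 a haX hax hay
      obtain ⟨d, hd1, hdz, had⟩ : ∃ d ∈ Y, d ≠ z ∧ G.Adj a d := by
        by_cases hcz : c = z
        · exact ⟨c', hc', fun h => hcc (hcz.trans h.symm), hac'⟩
        · exact ⟨c, hc, hcz, hac⟩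
      refine hAPP V G (X.erase x) Y y z a d 1 hd (Finset.mem_erase.2 ⟨hax, haX⟩) hzY had.symm haz ?_
      exact (hPA1 V G ((X.erase x).erase a) (Y.erase z) y d).1
        (Finset.mem_erase.2 ⟨fun h => hay h.symm, hyA⟩) (Finset.mem_erase.2 ⟨hdz, hd1⟩) (hy d hd1)
    · obtain ⟨i, rfl⟩ : ∃ i, j = i + 1 := ⟨j - 1, by omega⟩
      obtain ⟨a, haX, hax, hay, hab⟩ := h3 b hb
      refine hPRE V G (X.erase x) Y y z a b i hd hyA hb (hy b hb) hab.symm ?_
      have hk2 := hKILL2 V G (X.erase x) Y y b (a1, b) (a2, b)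
        (fun h => hne (Prod.mk.inj h).1) (Finset.mem_erase.2 ⟨ha1x, ha1⟩) hb hn1
        (Finset.mem_erase.2 ⟨ha2x, ha2⟩) hb hn2 (Or.inr rfl) (Or.inr rfl)
      have hk1 := (hKILL1 V G X Y).2.2 (X.erase x) Y (Finset.erase_subset _ _)
        (Finset.Subset.refl _)
      refine hP (k - 1) V G ((X.erase x).erase y) (Y.erase b) a z ?_ ?_ ?_ ?_ ?_ hz i (by omega)
        (by omega)
      · exact hdA _ _ ((Finset.erase_subset _ _).trans (Finset.erase_subset _ _))
          (Finset.erase_subset _ _)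
      · rw [Finset.card_erase_of_mem hyA, Finset.card_erase_of_mem hN.hx]
        omega
      · rw [Finset.card_erase_of_mem hb]
        omega
      · omega
      · exact Finset.mem_erase.2 ⟨hay, Finset.mem_erase.2 ⟨hax, haX⟩⟩
  · intro j hj2 hj
    have hk1 := (hKILL1 V G X Y).2.1 a1 b ha1 hb hn1
    refine (hPA1 V G (X.erase a1) Y x z).2 X Y j (Finset.erase_subset _ _)
      (Finset.Subset.refl _) ?_
    refine hP k V G (X.erase a1) Y x z ?_ ?_ hY (by omega) ?_ hzY j hj2 (by omega)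
    · exact hdA _ _ (Finset.erase_subset _ _) (Finset.Subset.refl _)
    · rw [Finset.card_erase_of_mem ha1]
      omega
    · exact Finset.mem_erase.2 ⟨fun h => ha1x h.symm, hN.hx⟩

end Pool.NB
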