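import Pool.Agent.Work.MP_f6e869_nb.Interface

namespace Pool.NB

open scoped Classical in
theorem p_ODD (hSYM : S_SYM) (hO1 : S_O1) (hO2 : S_O2) (hO3 : S_O3) (hO4a : S_O4a)
    (hO4b : S_O4b) : S_ODD := by
  intro V _ G X Y x y k hN hX hY hk hm h1 h3
  have key : ∀ x y : V, Nb G X Y x y → mis G X Y + 1 = k → (¬ ∀ b ∈ Y, G.Adj x b) →
      (∃ u v, Pan G u v) ∨ Nonempty (G ≃g BT k) := by
    intro x y hN hm' hx
    push Not at hx
    obtain ⟨b, hb, hxb⟩ := hx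
    by_cases hw : ∃ w ∈ X, w ≠ x ∧ ∃ b' ∈ Y, ¬ G.Adj w b'
    · obtain ⟨w, hw, hwx, b', hb', hwb⟩ := hw
      obtain ⟨z, hz⟩ := hO2 V G X Y x y w b b' k hN hX hY hk hm' hb hxb hw hwx hb' hwb
      exact Or.inl ⟨x, z, hz⟩
    · right
      refine hO3 V G X Y x y k hN hX hY hk hm' ?_
      intro w hw' hwx b' hb'
      by_contra hno
      exact hw ⟨w, hw', hwx, b', hb', hno⟩
  by_cases hm2 : mis G X Y + 2 ≤ k
  · obtain ⟨z, hz⟩ := hO1 V G X Y x y k hN hX hY hk hm2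
    exact Or.inl ⟨x, z, hz⟩
  · have hm' : mis G X Y + 1 = k := by omega
    by_cases cx : ∀ b ∈ Y, G.Adj x b
    · by_cases cy : ∀ b ∈ Y, G.Adj y b
      · left
        by_cases hb : ∃ b ∈ Y, ∃ a1 ∈ X, ∃ a2 ∈ X, a1 ≠ a2 ∧ ¬ G.Adj a1 b ∧ ¬ G.Adj a2 b
        · obtain ⟨b, hb, a1, ha1, a2, ha2, hne, hn1, hn2⟩ := hb
          obtain ⟨z, hz⟩ := hO4a V G X Y x y b a1 a2 k hN hX hY hk hm' cx cy h1 h3 hb ha1 ha2
            hne hn1 hn2
          exact ⟨x, z, hz⟩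
        · obtain ⟨z, hz⟩ := hO4b V G X Y x y k hN hX hY hk hm' cx cy h1 (by
            intro b hb' a ha a' ha' hn1 hn2
            by_contra hne
            exact hb ⟨b, hb', a, ha, a', ha', hne, hn1, hn2⟩)
          exact ⟨x, z, hz⟩
      · exact key y x (hSYM V G X Y x y hN) hm' cy
    · exact key x y hN hm' cx

end Pool.NB
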