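import Pool.Agent.Work.MP_f6e869_nb.Interface

set_option linter.unusedVariables false

namespace Pool.NB

open Pool.PE
open scoped Classical

theorem P_nbA {V : Type} {G : SimpleGraph V} {A B : Finset V} {m : ℕ} (hB : B.card = m)
    (hmis : mis G A B + 2 ≤ m) {u z : V} (hu : u ∈ A) : ∃ b ∈ B, b ≠ z ∧ G.Adj u b := by
  by_contra hcon
  push Not at hcon
  have h1 : (B.erase z).card ≤ mis G A B := by
    unfold mis
    refine Finset.card_le_card_of_injOn (fun b => (u, b)) ?_ ?_
    · intro b hb
      have hb' := Finset.mem_erase.1 (Finset.mem_coe.1 hb)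
      simp only [Finset.coe_filter, Finset.mem_product, Set.mem_setOf_eq]
      exact ⟨⟨hu, hb'.2⟩, hcon b hb'.2 hb'.1⟩
    · intro b _ b' _ h
      exact (Prod.mk.inj h).2
  have h2 := Finset.pred_card_le_card_erase (s := B) (a := z)
  omega

theorem P_nbB {V : Type} {G : SimpleGraph V} {A B : Finset V} {m : ℕ} (hA : A.card = m)
    (hmis : mis G A B + 2 ≤ m) {u z : V} (hz : z ∈ B) : ∃ a ∈ A, a ≠ u ∧ G.Adj a z := by
  by_contra hcon
  push Not at hcon
  have h1 : (A.erase u).card ≤ mis G A B := by
    unfold mis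
    refine Finset.card_le_card_of_injOn (fun a => (a, z)) ?_ ?_
    · intro b hb
      have hb' := Finset.mem_erase.1 (Finset.mem_coe.1 hb)
      simp only [Finset.coe_filter, Finset.mem_product, Set.mem_setOf_eq]
      exact ⟨⟨hb'.2, hz⟩, hcon b hb'.2 hb'.1⟩
    · intro b _ b' _ h
      exact (Prod.mk.inj h).1
  have h2 := Finset.pred_card_le_card_erase (s := A) (a := u)
  omega

theorem P_one {V : Type} {G : SimpleGraph V} {A B : Finset V} {u z : V} (hu : u ∈ A) (hz : z ∈ B)
    (h : G.Adj u z) : Pa G A B u z 1 := by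
  refine ⟨SimpleGraph.Walk.cons h SimpleGraph.Walk.nil, ?_, ?_, ?_⟩
  · rw [SimpleGraph.Walk.cons_isPath_iff]
    refine ⟨SimpleGraph.Walk.IsPath.nil, ?_⟩
    simp [h.ne]
  · simp
  · intro w hw
    simp at hw
    rcases hw with rfl | rfl
    · exact Or.inl hu
    · exact Or.inr hz

theorem p_P (hKILL1 : S_KILL1) (hPRE : S_PRE) (hAPP : S_APP) (hP4 : S_P4) : S_P := by
  intro m
  induction m with
  | zero =>
    intro V G A B u z hd hA hB hmis hu hz j hj hjm
    omega
  | succ m' ih =>
    intro V G A B u z hd hA hB hmis hu hz j hj hjm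
    have hpre : ∀ b ∈ B, b ≠ z → G.Adj u b → ∀ i : ℕ, 2 ≤ i → i ≤ m' →
        mis G (A.erase u) (B.erase b) + 2 ≤ m' → Pa G A B u z (i + 1) := by
      intro b hb hbz hub i hi him hm
      obtain ⟨a, ha, hau, hab⟩ := P_nbB (u := u) hA hmis hb
      refine hPRE V G A B u z a b i hd hu hb hub hab.symm ?_
      refine ih V G (A.erase u) (B.erase b) a z
        (hd.mono (Finset.erase_subset _ _) (Finset.erase_subset _ _)) ?_ ?_ hm
        (Finset.mem_erase.2 ⟨hau, ha⟩) (Finset.mem_erase.2 ⟨fun h => hbz h.symm, hz⟩) i hi him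
      · rw [Finset.card_erase_of_mem hu]; omega
      · rw [Finset.card_erase_of_mem hb]; omega
    by_cases hm3 : 3 ≤ m' + 1
    · rcases Nat.lt_or_ge 2 j with hj3 | hj2
      · obtain ⟨i, rfl⟩ : ∃ i, j = i + 1 := ⟨j - 1, by omega⟩
        have hi : 2 ≤ i := by omega
        have him : i ≤ m' := by omega
        have hK := hKILL1 V G A B
        by_cases hlow : mis G A B + 2 ≤ m'
        · obtain ⟨b, hb, hbz, hub⟩ := P_nbA (z := z) hB hmis hu
          refine hpre b hb hbz hub i hi him ?_
          have := hK.2.2 (A.erase u) (B.erase b) (Finset.erase_subset _ _) (Finset.erase_subset _ _)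
          omega
        · by_cases h1 : ∃ b0 ∈ B, ¬ G.Adj u b0
          · obtain ⟨b0, hb0, hub0⟩ := h1
            obtain ⟨b, hb, hbz, hub⟩ := P_nbA (z := z) hB hmis hu
            refine hpre b hb hbz hub i hi him ?_
            have := hK.1 u b (u, b0) hu hb0 hub0 (Or.inl rfl)
            omega
          · push Not at h1
            by_cases h2 : ∃ a0 ∈ A, ¬ G.Adj a0 z
            · obtain ⟨a0, ha0, ha0z⟩ := h2
              obtain ⟨a, ha, hau, haz⟩ := P_nbB (u := u) hA hmis hz
              obtain ⟨b, hb, hbz, hab⟩ := P_nbA (z := z) hB hmis ha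
              refine hAPP V G A B u z a b i hd ha hz hab.symm haz ?_
              refine ih V G (A.erase a) (B.erase z) u b
                (hd.mono (Finset.erase_subset _ _) (Finset.erase_subset _ _)) ?_ ?_ ?_
                (Finset.mem_erase.2 ⟨fun h => hau h.symm, hu⟩) (Finset.mem_erase.2 ⟨hbz, hb⟩) i hi him
              · rw [Finset.card_erase_of_mem ha]; omega
              · rw [Finset.card_erase_of_mem hz]; omega
              · have := hK.1 a z (a0, z) ha0 hz ha0z (Or.inr rfl)
                omega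
            · push Not at h2
              have hpos : 0 < mis G A B := by omega
              obtain ⟨p, hp⟩ := Finset.card_pos.1 hpos
              rw [Finset.mem_filter, Finset.mem_product] at hp
              obtain ⟨⟨hp1, hp2⟩, hp3⟩ := hp
              have hbz : p.2 ≠ z := by
                intro h
                rw [h] at hp3
                exact hp3 (h2 p.1 hp1)
              refine hpre p.2 hp2 hbz (h1 p.2 hp2) i hi him ?_
              have := hK.1 u p.2 p hp1 hp2 hp3 (Or.inr rfl)
              omega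
      · have hj' : j = 2 := by omega
        subst hj'
        exact hP4 V G A B u z (m' + 1) hd hA hB hm3 (by omega) hu hz
          (P_nbA (z := z) hB hmis hu) (P_nbB (u := u) hA hmis hz)
    · -- m' + 1 = 2
      have hj' : j = 2 := by omega
      subst hj'
      have hm0 : mis G A B = 0 := by omega
      have hall : ∀ a ∈ A, ∀ b ∈ B, G.Adj a b := by
        intro a ha b hb
        by_contra hab
        have hmem : (a, b) ∈ (A ×ˢ B).filter (fun p => ¬ G.Adj p.1 p.2) := by
          rw [Finset.mem_filter, Finset.mem_product]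
          exact ⟨⟨ha, hb⟩, hab⟩
        have hm0' : ((A ×ˢ B).filter (fun p => ¬ G.Adj p.1 p.2)).card = 0 := hm0
        rw [Finset.card_eq_zero] at hm0'
        rw [hm0'] at hmem
        exact absurd hmem (Finset.notMem_empty _)
      obtain ⟨b, hb, hbz, hub⟩ := P_nbA (z := z) hB hmis hu
      obtain ⟨a, ha, hau, haz⟩ := P_nbB (u := u) hA hmis hz
      exact hPRE V G A B u z a b 1 hd hu hb hub (hall a ha b hb).symm
        (P_one (Finset.mem_erase.2 ⟨hau, ha⟩) (Finset.mem_erase.2 ⟨fun h => hbz h.symm, hz⟩) haz)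

end Pool.NB
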