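import Pool.Agent.Work.MP_f6e869_nb.Interface

/-! Block P4 (helper9): a path with four vertices. -/

namespace Pool.NB

open Pool.PE
open scoped Classical

theorem P4_path {V : Type} (G : SimpleGraph V) (A B : Finset V) (u b a z : V)
    (hd : Disjoint A B) (hu : u ∈ A) (hz : z ∈ B) (hb : b ∈ B) (ha : a ∈ A) (hbz : b ≠ z)
    (hau : a ≠ u) (h1 : G.Adj u b) (h2 : G.Adj b a) (h3 : G.Adj a z) : Pa G A B u z 2 := by
  have hAB : ∀ v w, v ∈ A → w ∈ B → v ≠ w := by
    intro v w hv hw e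
    subst e
    exact (Finset.disjoint_left.1 hd hv) hw
  refine ⟨SimpleGraph.Walk.cons h1 (SimpleGraph.Walk.cons h2
    (SimpleGraph.Walk.cons h3 SimpleGraph.Walk.nil)), ?_, ?_, ?_⟩
  · simp only [SimpleGraph.Walk.cons_isPath_iff, SimpleGraph.Walk.support_cons,
      SimpleGraph.Walk.support_nil, List.mem_cons, List.not_mem_nil, or_false,
      SimpleGraph.Walk.IsPath.nil, true_and, not_or]
    exact ⟨⟨hAB a z ha hz, (hAB a b ha hb).symm, hbz⟩, hAB u b hu hb, hau.symm, hAB u z hu hz⟩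
  · simp
  · intro w hw
    simp only [SimpleGraph.Walk.support_cons, SimpleGraph.Walk.support_nil, List.mem_cons,
      List.not_mem_nil, or_false] at hw
    rcases hw with rfl | rfl | rfl | rfl
    · exact Or.inl hu
    · exact Or.inr hb
    · exact Or.inl ha
    · exact Or.inr hz

theorem P4_split {V : Type} (S : Finset V) (z : V) (p : V → Prop) (hz : z ∈ S) :
    (S.filter (fun b => b ≠ z ∧ p b)).card + (S.filter (fun b => b ≠ z ∧ ¬ p b)).card + 1 =
      S.card := by
  have h1 : (S.erase z).card + 1 = S.card := Finset.card_erase_add_one hz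
  have h2 : ((S.erase z).filter p).card + ((S.erase z).filter (fun b => ¬ p b)).card =
      (S.erase z).card := Finset.card_filter_add_card_filter_not _
  have e1 : (S.erase z).filter p = S.filter (fun b => b ≠ z ∧ p b) := by
    ext b
    simp only [Finset.mem_filter, Finset.mem_erase]
    tauto
  have e2 : (S.erase z).filter (fun b => ¬ p b) = S.filter (fun b => b ≠ z ∧ ¬ p b) := by
    ext b
    simp only [Finset.mem_filter, Finset.mem_erase]
    tauto
  rw [e1, e2] at h2
  omega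

theorem p_P4 : S_P4 := by
  intro V G A B u z m hd hA hB hm hmis hu hz hb ha
  by_contra hno
  have hno' : ∀ b ∈ B, ∀ a ∈ A, b ≠ z → a ≠ u → G.Adj u b → G.Adj a z → ¬ G.Adj a b := by
    intro b hb a ha hbz hau h1 h3 h2
    exact hno (P4_path G A B u b a z hd hu hz hb ha hbz hau h1 h2.symm h3)
  have hN := P4_split B z (fun b => G.Adj u b) hz
  have hM := P4_split A u (fun a => G.Adj a z) hu
  set N := B.filter (fun b => b ≠ z ∧ G.Adj u b) with hNd
  set N' := B.filter (fun b => b ≠ z ∧ ¬ G.Adj u b) with hNd'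
  set M := A.filter (fun a => a ≠ u ∧ G.Adj a z) with hMd
  set M' := A.filter (fun a => a ≠ u ∧ ¬ G.Adj a z) with hMd'
  have hN1 : 1 ≤ N.card := by
    obtain ⟨b, hb1, hb2, hb3⟩ := hb
    exact Finset.card_pos.2 ⟨b, Finset.mem_filter.2 ⟨hb1, hb2, hb3⟩⟩
  have hM1 : 1 ≤ M.card := by
    obtain ⟨a, ha1, ha2, ha3⟩ := ha
    exact Finset.card_pos.2 ⟨a, Finset.mem_filter.2 ⟨ha1, ha2, ha3⟩⟩
  have hsub : (M ×ˢ N) ∪ ((({u} : Finset V) ×ˢ N') ∪ (M' ×ˢ ({z} : Finset V))) ⊆
      (A ×ˢ B).filter (fun p => ¬ G.Adj p.1 p.2) := by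
    rintro ⟨a, b⟩ hp
    simp only [Finset.mem_union, Finset.mem_product, Finset.mem_singleton, hNd, hNd', hMd, hMd',
      Finset.mem_filter] at hp
    rw [Finset.mem_filter, Finset.mem_product]
    rcases hp with ⟨⟨h1, h2, h3⟩, h4, h5, h6⟩ | ⟨h1, h2, h3, h4⟩ | ⟨⟨h1, h2, h3⟩, h4⟩
    · exact ⟨⟨h1, h4⟩, hno' b h4 a h1 h5 h2 h6 h3⟩
    · subst h1
      exact ⟨⟨hu, h2⟩, h4⟩
    · subst h4
      exact ⟨⟨h1, hz⟩, h3⟩
  have hd1 : Disjoint (({u} : Finset V) ×ˢ N') (M' ×ˢ ({z} : Finset V)) := by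
    rw [Finset.disjoint_left]
    rintro ⟨a, b⟩ h1 h2
    simp only [Finset.mem_product, Finset.mem_singleton, hNd', hMd', Finset.mem_filter] at h1 h2
    exact h1.2.2.1 h2.2
  have hd2 : Disjoint (M ×ˢ N) ((({u} : Finset V) ×ˢ N') ∪ (M' ×ˢ ({z} : Finset V))) := by
    rw [Finset.disjoint_left]
    rintro ⟨a, b⟩ h1 h2
    simp only [Finset.mem_union, Finset.mem_product, Finset.mem_singleton, hNd, hNd', hMd, hMd',
      Finset.mem_filter] at h1 h2
    rcases h2 with h2 | h2
    · exact h1.1.2.1 h2.1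
    · exact h1.2.2.1 h2.2
  have hc := Finset.card_le_card hsub
  rw [Finset.card_union_of_disjoint hd2, Finset.card_union_of_disjoint hd1,
    Finset.card_product, Finset.card_product, Finset.card_product, Finset.card_singleton,
    Finset.card_singleton] at hc
  have hc2 : M.card * N.card + (1 * N'.card + M'.card * 1) ≤ mis G A B := hc
  have hmul : M.card + N.card ≤ M.card * N.card + 1 := by nlinarith
  omega

end Pool.NB
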