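import Pool.Agent.Work.MP_f6e869_nb.Interface

namespace Pool.NB

open Pool.PE
open scoped Classical

theorem p_PA1 : S_PA1 := by
  intro V G A B u z
  constructor
  · intro hu hz h
    refine ⟨h.toWalk, ?_, ?_, ?_⟩
    · rw [SimpleGraph.Walk.cons_isPath_iff]
      refine ⟨SimpleGraph.Walk.IsPath.nil, ?_⟩
      rw [SimpleGraph.Walk.support_nil, List.mem_singleton]
      exact h.ne
    · rfl
    · intro w hw
      have hw' : w = u ∨ w = z := by
        rw [SimpleGraph.Walk.support_cons, SimpleGraph.Walk.support_nil, List.mem_cons, List.mem_singleton] at hw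
        exact hw
      rcases hw' with rfl | rfl
      · left; exact hu
      · right; exact hz
  · rintro A' B' j hA hB ⟨q, h1, h2, h3⟩
    exact ⟨q, h1, h2, fun w hw => (h3 w hw).imp (fun h => hA h) (fun h => hB h)⟩

end Pool.NB
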