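import Pool.Agent.Work.MP_f6e869_nb.Interface

/-!
MP_f6e869_co, nearly bipartite graphs: block PRE.
-/

namespace Pool.NB

open Pool.PE
open scoped Classical

theorem p_PRE : S_PRE := by
  rintro V G A B u z a b j hAB hu hb hub hba ⟨q, hq, hl, hs⟩
  have hne : ∀ w, w ∈ A → w ∈ B → False := fun w h1 h2 => Finset.disjoint_left.mp hAB h1 h2
  have hu1 : u ∉ q.support := by
    intro h
    rcases hs u h with h1 | h1
    · exact (Finset.mem_erase.mp h1).1 rfl
    · exact hne u hu (Finset.mem_erase.mp h1).2
  have hb1 : b ∉ q.support := by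
    intro h
    rcases hs b h with h1 | h1
    · exact hne b (Finset.mem_erase.mp h1).2 hb
    · exact (Finset.mem_erase.mp h1).1 rfl
  refine ⟨SimpleGraph.Walk.cons hub (SimpleGraph.Walk.cons hba q), ?_, ?_, ?_⟩
  · rw [SimpleGraph.Walk.cons_isPath_iff, SimpleGraph.Walk.cons_isPath_iff]
    refine ⟨⟨hq, hb1⟩, ?_⟩
    rw [SimpleGraph.Walk.support_cons, List.mem_cons]
    rintro (h | h)
    · exact hub.ne h
    · exact hu1 h
  · rw [SimpleGraph.Walk.length_cons, SimpleGraph.Walk.length_cons]
    omega
  · intro w hw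
    rw [SimpleGraph.Walk.support_cons, List.mem_cons, SimpleGraph.Walk.support_cons,
      List.mem_cons] at hw
    rcases hw with rfl | rfl | hw
    · exact Or.inl hu
    · exact Or.inr hb
    · rcases hs w hw with h1 | h1
      · exact Or.inl (Finset.mem_erase.mp h1).2
      · exact Or.inr (Finset.mem_erase.mp h1).2

end Pool.NB
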