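import Pool.Agent.Work.MP_f6e869_nb.Interface

/-!
Block SET.
-/

namespace Pool.NB

open Pool.PE
open scoped Classical

theorem p_SET : S_SET := by
  intro V _ G x y hxy hG hB
  obtain ⟨C⟩ := hB
  have hne : x ≠ y := hxy.ne
  have hdel : ∀ u v, G.Adj u v → s(u, v) ≠ s(x, y) → C u ≠ C v := by
    intro u v huv hs
    apply C.valid
    rw [SimpleGraph.deleteEdges_adj]
    exact ⟨huv, by simpa using hs⟩
  have hcol : C x = C y := by
    by_contra hcon
    apply hG
    refine ⟨SimpleGraph.Coloring.mk (fun v => C v) ?_⟩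
    intro u v huv
    by_cases hs : s(u, v) = s(x, y)
    · rw [Sym2.eq_iff] at hs
      rcases hs with ⟨rfl, rfl⟩ | ⟨rfl, rfl⟩
      · exact hcon
      · exact fun h => hcon h.symm
    · exact hdel u v huv hs
  refine ⟨Finset.univ.filter (fun v => C v = C x), Finset.univ.filter (fun v => C v ≠ C x),
    ?_, ?_, ?_, ?_, hne, hxy, ?_, ?_⟩
  · rw [Finset.disjoint_filter]
    intro v _ h1 h2
    exact h2 h1
  · intro v
    by_cases h : C v = C x
    · exact Or.inl (by simp [h])
    · exact Or.inr (by simp [h])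
  · simp
  · simp [hcol]
  · intro u hu v hv huv
    have h1 : C u = C x := (Finset.mem_filter.1 hu).2
    have h2 : C v = C x := (Finset.mem_filter.1 hv).2
    have hs : s(u, v) = s(x, y) := by
      by_contra hs
      exact hdel u v huv hs (h1.trans h2.symm)
    rwa [Sym2.eq_iff] at hs
  · intro u hu v hv huv
    have h1 : C u ≠ C x := (Finset.mem_filter.1 hu).2
    have h2 : C v ≠ C x := (Finset.mem_filter.1 hv).2
    have hs : s(u, v) ≠ s(x, y) := by
      intro hs
      rw [Sym2.eq_iff] at hs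
      rcases hs with ⟨rfl, rfl⟩ | ⟨rfl, rfl⟩
      · exact h1 rfl
      · exact h2 rfl
    have h3 : C u ≠ C v := hdel u v huv hs
    have h4 : ∀ a b c : Fin 2, a ≠ c → b ≠ c → a = b := by decide
    exact h3 (h4 _ _ _ h1 h2)

end Pool.NB
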