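import Pool.Agent.Work.MP_f6e869_nb.Interface

namespace Pool.NB

open Pool.PE
open scoped Classical

theorem p_SYM : S_SYM := by
  intro V G X Y x y h
  refine ⟨h.dis, h.cov, h.hy, h.hx, h.ne.symm, h.adj.symm, ?_, h.indY⟩
  intro u hu v hv huv
  rcases h.ind u hu v hv huv with h1 | h1
  · exact Or.inr h1
  · exact Or.inl h1

end Pool.NB
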