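import Pool.Agent.Work.MP_f6e869_nb.Interface

/-!
Block XX (second copy, helper82; counting part from HE of helper18).
-/

namespace Pool.NB

open Pool.PE
open scoped Classical

theorem XXz_mod {V : Type} {G : SimpleGraph V} {n : ℕ} {c : ℕ → V} (h : Cyc G n c) (i : ℕ) :
    c i = c (i % n) := by
  have key : ∀ k i, c (i + n * k) = c i := by
    intro k
    induction k with
    | zero => intro i; simp
    | succ k ih =>
      intro i
      have e : i + n * (k + 1) = (i + n * k) + n := by ring
      rw [e, h.1, ih]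
  conv_lhs => rw [← Nat.mod_add_div i n]
  exact key _ _

theorem XXz_inj {V : Type} {G : SimpleGraph V} {n : ℕ} {c : ℕ → V} (hn : 1 ≤ n) (h : Cyc G n c)
    {i j : ℕ} (he : c i = c j) : i % n = j % n := by
  rw [XXz_mod h i, XXz_mod h j] at he
  exact h.2.1 _ _ (Nat.mod_lt _ hn) (Nat.mod_lt _ hn) he

theorem XXz_surj {V : Type} [Fintype V] {G : SimpleGraph V} {c : ℕ → V}
    (h : Cyc G (Fintype.card V) c) (v : V) : ∃ i, i < Fintype.card V ∧ c i = v := by
  have hb : Function.Bijective (fun i : Fin (Fintype.card V) => c i) := by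
    refine (Fintype.bijective_iff_injective_and_card _).2 ⟨?_, by simp⟩
    intro i j hij
    exact Fin.ext (h.2.1 _ _ i.2 j.2 hij)
  obtain ⟨i, hi⟩ := hb.2 v
  exact ⟨i, i.2, hi⟩

theorem p_XX : S_XX := by
  intro V _ G X Y x y c hN hn hc
  set n := Fintype.card V with hnn
  have hn1 : 1 ≤ n := by omega
  have hYX : ∀ i, c i ∈ Y → c (i + 1) ∈ X := by
    intro i hi
    rcases hN.cov (c (i + 1)) with h | h
    · exact h
    · exact absurd (hc.2.2 i) (hN.indY _ hi _ h)
  -- counting
  set S1 := (Finset.range n).filter (fun i => c i ∈ Y) with hS1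
  set S2 := (Finset.range n).filter (fun i => c (i + 1) ∈ X) with hS2
  have hsub : S1 ⊆ S2 := by
    intro i hi
    rw [hS1, Finset.mem_filter] at hi
    rw [hS2, Finset.mem_filter]
    exact ⟨hi.1, hYX i hi.2⟩
  have c1 : S1.card = Y.card := by
    have e : S1.image c = Y := by
      ext v
      rw [Finset.mem_image]
      constructor
      · rintro ⟨i, hi, rfl⟩
        exact (Finset.mem_filter.mp hi).2
      · intro hv
        obtain ⟨i, hi, rfl⟩ := XXz_surj hc v
        exact ⟨i, Finset.mem_filter.mpr ⟨Finset.mem_range.mpr hi, hv⟩, rfl⟩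
    rw [← e, Finset.card_image_of_injOn]
    intro i hi j hj hij
    exact hc.2.1 _ _ (Finset.mem_range.mp (Finset.mem_filter.mp hi).1)
      (Finset.mem_range.mp (Finset.mem_filter.mp hj).1) hij
  have c2 : S2.card = X.card := by
    have e : S2.image (fun i => c (i + 1)) = X := by
      ext v
      rw [Finset.mem_image]
      constructor
      · rintro ⟨i, hi, rfl⟩
        exact (Finset.mem_filter.mp hi).2
      · intro hv
        obtain ⟨j, hj, rfl⟩ := XXz_surj hc v
        have hi : (j + n - 1) % n < n := Nat.mod_lt _ hn1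
        have e1 : c ((j + n - 1) % n + 1) = c j := by
          rw [XXz_mod hc ((j + n - 1) % n + 1), XXz_mod hc j]
          congr 1
          rw [Nat.mod_add_mod]
          have : j + n - 1 + 1 = j + n := by omega
          rw [this, Nat.add_mod_right]
        refine ⟨(j + n - 1) % n, Finset.mem_filter.mpr ⟨Finset.mem_range.mpr hi, ?_⟩, e1⟩
        rw [e1]
        exact hv
    rw [← e, Finset.card_image_of_injOn]
    intro i hi j hj hij
    have hi' := Finset.mem_range.mp (Finset.mem_filter.mp hi).1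
    have hj' := Finset.mem_range.mp (Finset.mem_filter.mp hj).1
    have h1 : (i + 1) % n = (j + 1) % n := XXz_inj hn1 hc hij
    have h2 : i % n = j % n := Nat.ModEq.add_right_cancel' 1 h1
    rwa [Nat.mod_eq_of_lt hi', Nat.mod_eq_of_lt hj'] at h2
  have hD : (S2 \ S1).card ≤ 1 := by
    rw [Finset.card_le_one]
    have hmem : ∀ i ∈ S2 \ S1, i < n ∧ ((c i = x ∧ c (i + 1) = y) ∨ (c i = y ∧ c (i + 1) = x)) := by
      intro i hi
      rw [Finset.mem_sdiff, hS2, hS1, Finset.mem_filter, Finset.mem_filter] at hi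
      have hin := Finset.mem_range.mp hi.1.1
      have hX : c i ∈ X := by
        rcases hN.cov (c i) with h | h
        · exact h
        · exact absurd ⟨hi.1.1, h⟩ hi.2
      exact ⟨hin, hN.ind _ hX _ hi.1.2 (hc.2.2 i)⟩
    intro i hi j hj
    obtain ⟨hin, hi'⟩ := hmem i hi
    obtain ⟨hjn, hj'⟩ := hmem j hj
    have hcross : ∀ a b : ℕ, c a = x → c (a + 1) = y → c b = y → c (b + 1) = x → False := by
      intro a b h1 h2 h3 h4
      have e1 : (a + 1) % n = b % n := XXz_inj hn1 hc (h2.trans h3.symm)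
      have e2 : (b + 1) % n = a % n := XXz_inj hn1 hc (h4.trans h1.symm)
      have e3 : a + 1 + 1 ≡ b + 1 [MOD n] := Nat.ModEq.add_right 1 e1
      have e4 : a + 2 ≡ a + 0 [MOD n] := e3.trans e2
      have e5 : 2 ≡ 0 [MOD n] := Nat.ModEq.add_left_cancel' a e4
      have e6 := Nat.ModEq.eq_of_lt_of_lt e5 (by omega) (by omega)
      omega
    rcases hi' with ⟨a1, a2⟩ | ⟨a1, a2⟩ <;> rcases hj' with ⟨b1, b2⟩ | ⟨b1, b2⟩
    · exact hc.2.1 i j hin hjn (a1.trans b1.symm)
    · exact (hcross i j a1 a2 b1 b2).elim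
    · exact (hcross j i b1 b2 a1 a2).elim
    · exact hc.2.1 i j hin hjn (a1.trans b1.symm)
  have h1 := Finset.card_sdiff_add_card_eq_card hsub
  rw [c1, c2] at h1
  omega

end Pool.NB
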