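import Pool.Agent.Work.MP_f6e869_nb.Interface

set_option autoImplicit false

namespace Pool.NB

open Pool.PE
open scoped Classical

theorem p_E3d (hKILL2 : S_KILL2) (hKILL1 : S_KILL1) (hPA1 : S_PA1) (hAPP : S_APP) (hP : S_P)
    (hGOOD : S_GOOD) : S_E3d := by
  intro V _ G X Y x y k hNb hX hY hk hmis hx hy h1 huni
  set M := (X ×ˢ Y).filter (fun p => ¬ G.Adj p.1 p.2) with hM
  have hMc : M.card + 1 = k := hmis
  have hMm : ∀ p : V × V, p ∈ M ↔ (p.1 ∈ X ∧ p.2 ∈ Y) ∧ ¬ G.Adj p.1 p.2 := by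
    intro p
    rw [hM, Finset.mem_filter, Finset.mem_product]
  have hinj : ∀ p ∈ M, ∀ q ∈ M, p.2 = q.2 → p = q := by
    intro p hp q hq hpq
    have hp' := (hMm p).1 hp
    have hq' := (hMm q).1 hq
    refine Prod.ext ?_ hpq
    refine huni p.2 hp'.1.2 p.1 hp'.1.1 q.1 hq'.1.1 hp'.2 ?_
    rw [hpq]
    exact hq'.2
  -- two missing pairs with different first coordinates
  obtain ⟨a0, z, a, c, ha0, hz, ha0z, ha, hc, hac, hne⟩ : ∃ a0 z a c, a0 ∈ X ∧ z ∈ Y ∧
      ¬ G.Adj a0 z ∧ a ∈ X ∧ c ∈ Y ∧ ¬ G.Adj a c ∧ a ≠ a0 := by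
    have hne : M.Nonempty := by
      rw [← Finset.card_pos]
      omega
    obtain ⟨p, hp⟩ := hne
    have hp' := (hMm p).1 hp
    by_contra hcon
    have hall : ∀ q ∈ M, q.1 = p.1 := by
      intro q hq
      by_contra hqp
      have hq' := (hMm q).1 hq
      exact hcon ⟨p.1, p.2, q.1, q.2, hp'.1.1, hp'.1.2, hp'.2, hq'.1.1, hq'.1.2, hq'.2, hqp⟩
    obtain ⟨n1, hn1, n2, hn2, hn12, hA1, hA2⟩ := h1 p.1 hp'.1.1
    have hsub : M.image (fun q => q.2) ⊆ (Y.erase n1).erase n2 := by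
      intro b hb
      obtain ⟨q, hq, rfl⟩ := Finset.mem_image.1 hb
      have hq' := (hMm q).1 hq
      rw [hall q hq] at hq'
      refine Finset.mem_erase.2 ⟨?_, Finset.mem_erase.2 ⟨?_, hq'.1.2⟩⟩
      · intro h
        apply hq'.2
        show G.Adj p.1 q.2
        rw [h]
        exact hA2
      · intro h
        apply hq'.2
        show G.Adj p.1 q.2
        rw [h]
        exact hA1
    have h2 := Finset.card_le_card hsub
    rw [Finset.card_image_of_injOn (fun p hp q hq h => hinj p hp q hq h),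
      Finset.card_erase_of_mem (Finset.mem_erase.2 ⟨hn12.symm, hn2⟩),
      Finset.card_erase_of_mem hn1, hY] at h2
    omega
  have haz : G.Adj a z := by
    by_contra h
    exact hne (huni z hz a ha a0 ha0 h ha0z)
  have hcz : c ≠ z := by
    rintro rfl
    exact hac haz
  have hax : a ≠ x := by
    rintro rfl
    exact hac (hx c hc)
  have hay : a ≠ y := by
    rintro rfl
    exact hac (hy c hc)
  have ha0x : a0 ≠ x := by
    rintro rfl
    exact ha0z (hx z hz)
  -- the third missing pair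
  obtain ⟨a2, b, ha2, hb, ha2b, hbz, hbc, hcase⟩ : ∃ a2 b, a2 ∈ X ∧ b ∈ Y ∧ ¬ G.Adj a2 b ∧ b ≠ z ∧
      b ≠ c ∧ (a2 = a ∨ ∀ b2 ∈ Y, ¬ G.Adj a b2 → b2 = c) := by
    by_cases hex : ∃ b2 ∈ Y, ¬ G.Adj a b2 ∧ b2 ≠ c
    · obtain ⟨b2, hb2, h2, h3⟩ := hex
      refine ⟨a, b2, ha, hb2, h2, ?_, h3, Or.inl rfl⟩
      rintro rfl
      exact h2 haz
    · have hno : ∀ b2 ∈ Y, ¬ G.Adj a b2 → b2 = c := by
        intro b2 hb2 h2
        by_contra h3
        exact hex ⟨b2, hb2, h2, h3⟩
      by_contra hcon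
      have hsub : M.image (fun q => q.2) ⊆ {z, c} := by
        intro b hb
        obtain ⟨q, hq, rfl⟩ := Finset.mem_image.1 hb
        have hq' := (hMm q).1 hq
        rw [Finset.mem_insert, Finset.mem_singleton]
        by_contra hq2
        rw [not_or] at hq2
        exact hcon ⟨q.1, q.2, hq'.1.1, hq'.1.2, hq'.2, hq2.1, hq2.2, Or.inr hno⟩
      have h2 := Finset.card_le_card hsub
      rw [Finset.card_image_of_injOn (fun p hp q hq h => hinj p hp q hq h)] at h2
      have h3 : ({z, c} : Finset V).card ≤ 2 := Finset.card_le_two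
      omega
  -- a neighbour of a
  obtain ⟨b', hb', hb'z, hb'b, hab'⟩ : ∃ b' ∈ Y, b' ≠ z ∧ b' ≠ b ∧ G.Adj a b' := by
    rcases hcase with hcase | hcase
    · rw [hcase] at ha2b
      obtain ⟨n1, hn1, n2, hn2, hn12, hA1, hA2⟩ := h1 a ha
      by_cases h : n1 = z
      · refine ⟨n2, hn2, fun h' => hn12 (h.trans h'.symm), ?_, hA2⟩
        rintro rfl
        exact ha2b hA2
      · refine ⟨n1, hn1, h, ?_, hA1⟩
        rintro rfl
        exact ha2b hA1
    · have hpos : 0 < (((Y.erase z).erase b).erase c).card := by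
        rw [Finset.card_erase_of_mem (Finset.mem_erase.2 ⟨hbc.symm, Finset.mem_erase.2 ⟨hcz, hc⟩⟩),
          Finset.card_erase_of_mem (Finset.mem_erase.2 ⟨hbz, hb⟩), Finset.card_erase_of_mem hz, hY]
        omega
      obtain ⟨b', hb'⟩ := Finset.card_pos.1 hpos
      rw [Finset.mem_erase, Finset.mem_erase, Finset.mem_erase] at hb'
      refine ⟨b', hb'.2.2.2, hb'.2.2.1, hb'.2.1, ?_⟩
      by_contra h
      exact hb'.1 (hcase b' hb'.2.2.2 h)
  have hcardV : Fintype.card V = 2 * k := by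
    have hu : X ∪ Y = Finset.univ := by
      ext v
      simp only [Finset.mem_union, Finset.mem_univ, iff_true]
      exact hNb.cov v
    have h2 := Finset.card_union_of_disjoint hNb.dis
    rw [hu, Finset.card_univ, hX, hY] at h2
    omega
  have hdis : ∀ A B : Finset V, A ⊆ X → B ⊆ Y → Disjoint A B := fun A B hA hB =>
    Finset.disjoint_of_subset_left hA (Finset.disjoint_of_subset_right hB hNb.dis)
  refine ⟨z, hGOOD V G X Y x y z hNb hz (hx z hz) (hy z hz) ?_ ?_⟩
  · -- paths from y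
    intro j hj hjk
    rw [hcardV] at hjk
    obtain ⟨j', rfl⟩ : ∃ j', j = j' + 1 := ⟨j - 1, by omega⟩
    refine (hPA1 V G (X.erase x) (Y.erase b) y z).2 (X.erase x) Y (j' + 1) (Finset.Subset.refl _)
      (Finset.erase_subset _ _) ?_
    refine hAPP V G (X.erase x) (Y.erase b) y z a b' j'
      (hdis _ _ (Finset.erase_subset _ _) (Finset.erase_subset _ _))
      (Finset.mem_erase.2 ⟨hax, ha⟩) (Finset.mem_erase.2 ⟨hbz.symm, hz⟩) hab'.symm haz ?_
    have hyA : y ∈ (X.erase x).erase a :=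
      Finset.mem_erase.2 ⟨hay.symm, Finset.mem_erase.2 ⟨hNb.ne.symm, hNb.hy⟩⟩
    have hbB : b' ∈ (Y.erase b).erase z :=
      Finset.mem_erase.2 ⟨hb'z, Finset.mem_erase.2 ⟨hb'b, hb'⟩⟩
    rcases Nat.lt_or_ge j' 2 with hj' | hj'
    · have : j' = 1 := by omega
      subst this
      exact (hPA1 V G _ _ y b').1 hyA hbB (hy b' hb')
    · refine hP (k - 2) V G _ _ y b' (hdis _ _ ((Finset.erase_subset _ _).trans
        (Finset.erase_subset _ _)) ((Finset.erase_subset _ _).trans (Finset.erase_subset _ _)))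
        ?_ ?_ ?_ hyA hbB j' hj' (by omega)
      · rw [Finset.card_erase_of_mem (Finset.mem_erase.2 ⟨hax, ha⟩),
          Finset.card_erase_of_mem hNb.hx, hX]
        omega
      · rw [Finset.card_erase_of_mem (Finset.mem_erase.2 ⟨hbz.symm, hz⟩),
          Finset.card_erase_of_mem hb, hY]
        omega
      · have e1 := (hKILL1 V G X Y).1 x b (a2, b) ha2 hb ha2b (Or.inr rfl)
        have e2 := hKILL2 V G (X.erase x) (Y.erase b) a z (a0, z) (a, c)
          (fun h => hne (congrArg Prod.fst h).symm)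
          (Finset.mem_erase.2 ⟨ha0x, ha0⟩) (Finset.mem_erase.2 ⟨hbz.symm, hz⟩) ha0z
          (Finset.mem_erase.2 ⟨hax, ha⟩) (Finset.mem_erase.2 ⟨hbc.symm, hc⟩) hac
          (Or.inr rfl) (Or.inl rfl)
        omega
  · -- paths from x
    intro j hj hjk
    rw [hcardV] at hjk
    obtain ⟨j', rfl⟩ : ∃ j', j = j' + 1 := ⟨j - 1, by omega⟩
    refine hAPP V G X Y x z a b' j' hNb.dis ha hz hab'.symm haz ?_
    have hxA : x ∈ X.erase a := Finset.mem_erase.2 ⟨hax.symm, hNb.hx⟩
    have hbB : b' ∈ Y.erase z := Finset.mem_erase.2 ⟨hb'z, hb'⟩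
    rcases Nat.lt_or_ge j' 2 with hj' | hj'
    · have : j' = 1 := by omega
      subst this
      exact (hPA1 V G _ _ x b').1 hxA hbB (hx b' hb')
    · refine hP (k - 1) V G _ _ x b' (hdis _ _ (Finset.erase_subset _ _)
        (Finset.erase_subset _ _)) ?_ ?_ ?_ hxA hbB j' hj' (by omega)
      · rw [Finset.card_erase_of_mem ha, hX]
      · rw [Finset.card_erase_of_mem hz, hY]
      · have e2 := hKILL2 V G X Y a z (a0, z) (a, c)
          (fun h => hne (congrArg Prod.fst h).symm) ha0 hz ha0z ha hc hac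
          (Or.inr rfl) (Or.inl rfl)
        omega

end Pool.NB
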