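import Pool.Agent.Work.MP_f6e869_nb.Interface

/-! # GOOD: enough paths make xz pancyclic -/

set_option autoImplicit false

namespace Pool.NB

open Pool.PE
open scoped Classical

theorem p_GOOD (hCE : S_CE) (hCO : S_CO) : S_GOOD := by
  intro V _ G X Y x y z hN hz hxz hyz hodd heven
  refine ⟨hxz, fun k hk hkV => ?_⟩
  rcases Nat.even_or_odd' k with ⟨j, hj | hj⟩
  · have hj2 : 2 ≤ j := by omega
    obtain ⟨q, hq, hl, -⟩ := heven j hj2 (by omega)
    obtain ⟨w, hw, hwl, he⟩ := hCE V G x z q hq (by omega) hxz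
    exact ⟨w, hw, by omega, he⟩
  · rcases Nat.lt_or_ge j 2 with hj2 | hj2
    · have hne : x ∉ (SimpleGraph.Walk.cons hyz SimpleGraph.Walk.nil : G.Walk y z).support := by
        rw [SimpleGraph.Walk.support_cons, SimpleGraph.Walk.support_nil, List.mem_cons,
          List.mem_singleton]
        rintro (h | h)
        · exact hN.ne h
        · exact hxz.ne h
      have hp : (SimpleGraph.Walk.cons hyz SimpleGraph.Walk.nil : G.Walk y z).IsPath := by
        rw [SimpleGraph.Walk.cons_isPath_iff]
        refine ⟨SimpleGraph.Walk.IsPath.nil, ?_⟩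
        rw [SimpleGraph.Walk.support_nil, List.mem_singleton]
        exact hyz.ne
      obtain ⟨w, hw, hwl, he⟩ := hCO V G x y z _ hp hne le_rfl hN.adj hxz
      refine ⟨w, hw, ?_, he⟩
      rw [hwl, SimpleGraph.Walk.length_cons, SimpleGraph.Walk.length_nil]
      omega
    · obtain ⟨q, hq, hl, hs⟩ := hodd j hj2 (by omega)
      have hx : x ∉ q.support := by
        intro h
        rcases hs x h with h1 | h1
        · exact (Finset.mem_erase.1 h1).1 rfl
        · exact Finset.disjoint_left.1 hN.dis hN.hx h1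
      obtain ⟨w, hw, hwl, he⟩ := hCO V G x y z q hq hx (by omega) hN.adj hxz
      exact ⟨w, hw, by omega, he⟩

end Pool.NB
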