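import Pool.Agent.Work.MP_f6e869_nb.Interface

set_option autoImplicit false

namespace Pool.NB

open Pool.PE
open scoped Classical

theorem p_O4b (hKILL2 : S_KILL2) (hKILL1 : S_KILL1) (hPA1 : S_PA1) (_hPRE : S_PRE)
    (hAPP : S_APP) (hP : S_P) (hGOOD : S_GOOD) : S_O4b := by
  intro V _ G X Y x y k hN hX hY hk hm hxc hyc h1 hu
  have hcard : Fintype.card V = 2 * k + 1 := by
    have h := Finset.card_union_of_disjoint hN.dis
    have h2 : X ∪ Y = Finset.univ := by
      ext v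
      simp only [Finset.mem_union, Finset.mem_univ, iff_true]
      exact hN.cov v
    rw [h2, Finset.card_univ] at h
    omega
  -- a missing pair
  have hpos : 0 < ((X ×ˢ Y).filter (fun p => ¬ G.Adj p.1 p.2)).card := by
    unfold mis at hm
    omega
  obtain ⟨⟨a0, z⟩, hp⟩ := Finset.card_pos.1 hpos
  simp only [Finset.mem_filter, Finset.mem_product] at hp
  obtain ⟨⟨ha0, hz⟩, hn0⟩ := hp
  have ha0x : a0 ≠ x := fun h => hn0 (h ▸ hxc z hz)
  have ha0y : a0 ≠ y := fun h => hn0 (h ▸ hyc z hz)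
  -- a second one
  obtain ⟨a, ha, c, hc, hn1, haa0⟩ : ∃ a ∈ X, ∃ c ∈ Y, ¬ G.Adj a c ∧ a ≠ a0 := by
    by_contra hcon
    push Not at hcon
    obtain ⟨b1, hb1, b2, hb2, hb12, hA1, hA2⟩ := h1 a0 ha0 ha0x ha0y
    have hsub : (X ×ˢ Y).filter (fun p => ¬ G.Adj p.1 p.2) ⊆ {a0} ×ˢ ((Y.erase b1).erase b2) := by
      rintro ⟨p, q⟩ hpq
      simp only [Finset.mem_filter, Finset.mem_product] at hpq
      obtain ⟨⟨h3, h4⟩, h5⟩ := hpq
      have h6 : p = a0 := hcon p h3 q h4 h5
      subst h6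
      simp only [Finset.mem_product, Finset.mem_singleton, Finset.mem_erase, true_and]
      refine ⟨?_, ?_, h4⟩
      · rintro rfl
        exact h5 hA2
      · rintro rfl
        exact h5 hA1
    have h3 := Finset.card_le_card hsub
    rw [Finset.card_product, Finset.card_singleton, one_mul,
      Finset.card_erase_of_mem (Finset.mem_erase.2 ⟨hb12.symm, hb2⟩),
      Finset.card_erase_of_mem hb1] at h3
    unfold mis at hm
    omega
  have hax : a ≠ x := fun h => hn1 (h ▸ hxc c hc)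
  have hay : a ≠ y := fun h => hn1 (h ▸ hyc c hc)
  have haz : G.Adj a z := by
    by_contra h
    exact haa0 (hu z hz a ha a0 ha0 h hn0)
  obtain ⟨b', hb', hbz, hab'⟩ : ∃ b' ∈ Y, b' ≠ z ∧ G.Adj a b' := by
    obtain ⟨b1, hb1, b2, hb2, hb12, hA1, hA2⟩ := h1 a ha hax hay
    by_cases h : b1 = z
    · exact ⟨b2, hb2, fun h' => hb12 (h.trans h'.symm), hA2⟩
    · exact ⟨b1, hb1, h, hA1⟩
  have hdis : Disjoint (X.erase x) Y := Finset.disjoint_of_subset_left (Finset.erase_subset _ _) hN.dis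
  have haA : a ∈ X.erase x := Finset.mem_erase.2 ⟨hax, ha⟩
  have hyA : y ∈ X.erase x := Finset.mem_erase.2 ⟨hN.ne.symm, hN.hy⟩
  have hyA' : y ∈ (X.erase x).erase a := Finset.mem_erase.2 ⟨hay.symm, hyA⟩
  have hb'B : b' ∈ Y.erase z := Finset.mem_erase.2 ⟨hbz, hb'⟩
  refine ⟨z, hGOOD V G X Y x y z hN hz (hxc z hz) (hyc z hz) ?_ ?_⟩
  · intro j hj2 hj
    obtain ⟨j', rfl⟩ : ∃ j', j = j' + 1 := ⟨j - 1, by omega⟩
    refine hAPP V G (X.erase x) Y y z a b' j' hdis haA hz hab'.symm haz ?_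
    by_cases hj1 : j' = 1
    · subst hj1
      exact (hPA1 V G _ _ y b').1 hyA' hb'B (hyc b' hb')
    · refine hP (k - 1) V G _ _ y b' ?_ ?_ ?_ ?_ hyA' hb'B j' (by omega) (by omega)
      · exact Finset.disjoint_of_subset_left (Finset.erase_subset _ _)
          (Finset.disjoint_of_subset_right (Finset.erase_subset _ _) hdis)
      · rw [Finset.card_erase_of_mem haA, Finset.card_erase_of_mem hN.hx, hX]
        omega
      · rw [Finset.card_erase_of_mem hz, hY]
      · have h3 := hKILL2 V G (X.erase x) Y a z (a0, z) (a, c)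
          (fun h => haa0 (congrArg Prod.fst h).symm)
          (Finset.mem_erase.2 ⟨ha0x, ha0⟩) hz hn0 haA hc hn1 (Or.inr rfl) (Or.inl rfl)
        have h4 := (hKILL1 V G X Y).2.2 (X.erase x) Y (Finset.erase_subset _ _)
          (Finset.Subset.refl _)
        omega
  · intro j hj2 hj
    refine (hPA1 V G (X.erase a0) Y x z).2 X Y j (Finset.erase_subset _ _)
      (Finset.Subset.refl _) ?_
    refine hP k V G _ _ x z ?_ ?_ hY ?_ (Finset.mem_erase.2 ⟨ha0x.symm, hN.hx⟩) hz j hj2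
      (by omega)
    · exact Finset.disjoint_of_subset_left (Finset.erase_subset _ _) hN.dis
    · rw [Finset.card_erase_of_mem ha0, hX]
      omega
    · have h3 := (hKILL1 V G X Y).2.1 a0 z ha0 hz hn0
      omega

end Pool.NB
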