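import Pool.Agent.Work.MP_f6e869_nb.Interface

set_option autoImplicit false

namespace Pool.NB

open Pool.PE
open scoped Classical

theorem p_ODD (hSYM : S_SYM) (hO1 : S_O1) (hO2 : S_O2) (hO3 : S_O3) (hO4a : S_O4a)
    (hO4b : S_O4b) : S_ODD := by
  intro V _ G X Y x y k hNb hXc hYc hk hmis h1 h3
  by_cases hlt : mis G X Y + 2 ≤ k
  · obtain ⟨z, hz⟩ := hO1 V G X Y x y k hNb hXc hYc hk hlt
    exact Or.inl ⟨x, z, hz⟩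
  have hm : mis G X Y + 1 = k := by omega
  have hNb' : Nb G X Y y x := hSYM V G X Y x y hNb
  by_cases hx : ∃ b ∈ Y, ¬ G.Adj x b
  · obtain ⟨b, hb, hxb⟩ := hx
    by_cases hall : ∀ w ∈ X, w ≠ x → ∀ b ∈ Y, G.Adj w b
    · exact Or.inr (hO3 V G X Y x y k hNb hXc hYc hk hm hall)
    · push Not at hall
      obtain ⟨w, hw, hwx, b', hb', hwb⟩ := hall
      obtain ⟨z, hz⟩ := hO2 V G X Y x y w b b' k hNb hXc hYc hk hm hb hxb hw hwx hb' hwb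
      exact Or.inl ⟨x, z, hz⟩
  by_cases hy : ∃ b ∈ Y, ¬ G.Adj y b
  · obtain ⟨b, hb, hyb⟩ := hy
    by_cases hall : ∀ w ∈ X, w ≠ y → ∀ b ∈ Y, G.Adj w b
    · exact Or.inr (hO3 V G X Y y x k hNb' hXc hYc hk hm hall)
    · push Not at hall
      obtain ⟨w, hw, hwy, b', hb', hwb⟩ := hall
      obtain ⟨z, hz⟩ := hO2 V G X Y y x w b b' k hNb' hXc hYc hk hm hb hyb hw hwy hb' hwb
      exact Or.inl ⟨y, z, hz⟩
  push Not at hx hy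
  by_cases hb2 : ∃ b ∈ Y, ∃ a1 ∈ X, ∃ a2 ∈ X, a1 ≠ a2 ∧ ¬ G.Adj a1 b ∧ ¬ G.Adj a2 b
  · obtain ⟨b, hb, a1, ha1, a2, ha2, hne, hn1, hn2⟩ := hb2
    obtain ⟨z, hz⟩ := hO4a V G X Y x y b a1 a2 k hNb hXc hYc hk hm hx hy h1 h3 hb ha1 ha2 hne
      hn1 hn2
    exact Or.inl ⟨x, z, hz⟩
  · have huniq : ∀ b ∈ Y, ∀ a ∈ X, ∀ a' ∈ X, ¬ G.Adj a b → ¬ G.Adj a' b → a = a' := by
      intro b hb a ha a' ha' hn hn'
      by_contra hne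
      exact hb2 ⟨b, hb, a, ha, a', ha', hne, hn, hn'⟩
    obtain ⟨z, hz⟩ := hO4b V G X Y x y k hNb hXc hYc hk hm hx hy h1 huniq
    exact Or.inl ⟨x, z, hz⟩

end Pool.NB
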