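import Pool.Agent.Work.MP_f6e869_pe.Interface

/-!
MP_f6e869_co, second theorem: the conjecture holds for every graph G such that G - e is bipartite
for some edge e (nearly bipartite graphs), BT(n) being the exact exception.
Interface by helper82.  X, Y = the two classes of G - xy (x, y in X), mis = number of missing
X-Y pairs, Pa G A B u z j = a path with 2 j vertices from u to z inside A ∪ B.
-/

namespace Pool.NB

open Pool.PE
open scoped Classical

/-- A path with 2 j vertices from u to z inside A ∪ B. -/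
def Pa {V : Type} (G : SimpleGraph V) (A B : Finset V) (u z : V) (j : ℕ) : Prop :=
  ∃ q : G.Walk u z, q.IsPath ∧ q.length + 1 = 2 * j ∧ ∀ w ∈ q.support, w ∈ A ∨ w ∈ B

/-- Number of pairs (a, b) in A × B which are not adjacent. -/
noncomputable def mis {V : Type} (G : SimpleGraph V) (A B : Finset V) : ℕ :=
  ((A ×ˢ B).filter (fun p => ¬ G.Adj p.1 p.2)).card

/-- The edge xz is pancyclic. -/
def Pan {V : Type} [Fintype V] (G : SimpleGraph V) (x z : V) : Prop :=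
  G.Adj x z ∧ ∀ k, 3 ≤ k → k ≤ Fintype.card V →
    ∃ w : G.Walk x x, w.IsCycle ∧ w.length = k ∧ s(x, z) ∈ w.edges

/-- G minus the edge xy is bipartite with classes X, Y, and x, y are in X. -/
structure Nb {V : Type} (G : SimpleGraph V) (X Y : Finset V) (x y : V) : Prop where
  dis : Disjoint X Y
  cov : ∀ v, v ∈ X ∨ v ∈ Y
  hx : x ∈ X
  hy : y ∈ X
  ne : x ≠ y
  adj : G.Adj x y
  ind : ∀ u ∈ X, ∀ v ∈ X, G.Adj u v → (u = x ∧ v = y) ∨ (u = y ∧ v = x)
  indY : ∀ u ∈ Y, ∀ v ∈ Y, ¬ G.Adj u v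

/-- BT(2k+1): K_{k,k} and one vertex (none) adjacent to the two ends of the edge inl 0, inr 0. -/
def BT (k : ℕ) : SimpleGraph (Option (Fin k ⊕ Fin k)) :=
  SimpleGraph.fromRel (fun a b => (∃ i j, a = some (Sum.inl i) ∧ b = some (Sum.inr j)) ∨
    (a = none ∧ ∃ i : Fin k, i.val = 0 ∧ (b = some (Sum.inl i) ∨ b = some (Sum.inr i))))

/-! ### Paths -/

/-- KILL2: two different missing pairs which use a or b disappear. -/
def S_KILL2 : Prop := ∀ (V : Type) (G : SimpleGraph V) (A B : Finset V) (a b : V)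
  (p q : V × V), p ≠ q → p.1 ∈ A → p.2 ∈ B → ¬ G.Adj p.1 p.2 → q.1 ∈ A → q.2 ∈ B →
  ¬ G.Adj q.1 q.2 → (p.1 = a ∨ p.2 = b) → (q.1 = a ∨ q.2 = b) →
  mis G (A.erase a) (B.erase b) + 2 ≤ mis G A B

/-- KILL1: one missing pair which uses a or b disappears; one-sided form; monotonicity. -/
def S_KILL1 : Prop := ∀ (V : Type) (G : SimpleGraph V) (A B : Finset V),
  (∀ a b (p : V × V), p.1 ∈ A → p.2 ∈ B → ¬ G.Adj p.1 p.2 → (p.1 = a ∨ p.2 = b) →
    mis G (A.erase a) (B.erase b) + 1 ≤ mis G A B) ∧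
  (∀ a b, a ∈ A → b ∈ B → ¬ G.Adj a b → mis G (A.erase a) B + 1 ≤ mis G A B) ∧
  (∀ A' B', A' ⊆ A → B' ⊆ B → mis G A' B' ≤ mis G A B)

/-- PA1: edges, larger sets. -/
def S_PA1 : Prop := ∀ (V : Type) (G : SimpleGraph V) (A B : Finset V) (u z : V),
  (u ∈ A → z ∈ B → G.Adj u z → Pa G A B u z 1) ∧
  (∀ A' B' j, A ⊆ A' → B ⊆ B' → Pa G A B u z j → Pa G A' B' u z j)

/-- PRE: u, b in front of a path from a. -/
def S_PRE : Prop := ∀ (V : Type) (G : SimpleGraph V) (A B : Finset V) (u z a b : V) (j : ℕ),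
  Disjoint A B → u ∈ A → b ∈ B → G.Adj u b → G.Adj b a →
  Pa G (A.erase u) (B.erase b) a z j → Pa G A B u z (j + 1)

/-- APP: a, z behind a path to b. -/
def S_APP : Prop := ∀ (V : Type) (G : SimpleGraph V) (A B : Finset V) (u z a b : V) (j : ℕ),
  Disjoint A B → a ∈ A → z ∈ B → G.Adj b a → G.Adj a z →
  Pa G (A.erase a) (B.erase z) u b j → Pa G A B u z (j + 1)

/-- P4: a path u, b, a, z.  Otherwise all pairs between N(z) minus u and N(u) minus z are missing: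
with U = #(N(u) in B minus z) ≥ 1, W = #(N(z) in A minus u) ≥ 1 the number of missing pairs is at
least U W + (m-1-U) + (m-1-W) ≥ 2 m - 3 > m - 1 for m ≥ 3. -/
def S_P4 : Prop := ∀ (V : Type) (G : SimpleGraph V) (A B : Finset V) (u z : V) (m : ℕ),
  Disjoint A B → A.card = m → B.card = m → 3 ≤ m → mis G A B + 1 ≤ m → u ∈ A → z ∈ B →
  (∃ b ∈ B, b ≠ z ∧ G.Adj u b) → (∃ a ∈ A, a ≠ u ∧ G.Adj a z) → Pa G A B u z 2

/-- P: balanced m × m with at most m - 2 missing pairs: paths with 4, 6, ..., 2 m vertices.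
Induction on m.  m = 2: nothing is missing.  m ≥ 3: each vertex has at least 2 neighbours on the
other side.  j = 2: P4.  j ≥ 3: if mis ≤ m - 3: any b ≠ z adjacent to u, any a ≠ u adjacent to b,
PRE.  If mis = m - 2 ≥ 1 take a missing pair (a0, b0): if u has a missing pair: any b ≠ z adjacent
to u, PRE; if z has a missing pair: any a ≠ u adjacent to z, any b ≠ z adjacent to a, APP;
otherwise b0 ≠ z, u is adjacent to b0: b = b0, PRE.  In each case one missing pair disappears. -/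
def S_P : Prop := ∀ (m : ℕ) (V : Type) (G : SimpleGraph V) (A B : Finset V) (u z : V),
  Disjoint A B → A.card = m → B.card = m → mis G A B + 2 ≤ m → u ∈ A → z ∈ B →
  ∀ j, 2 ≤ j → j ≤ m → Pa G A B u z j

/-- CE: closing a path from x to z by the edge xz. -/
def S_CE : Prop := ∀ (V : Type) (G : SimpleGraph V) (x z : V) (q : G.Walk x z),
  q.IsPath → 3 ≤ q.length → G.Adj x z →
  ∃ w : G.Walk x x, w.IsCycle ∧ w.length = q.length + 1 ∧ s(x, z) ∈ w.edges

/-- CO: the cycle x, y, ..., z, x. -/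
def S_CO : Prop := ∀ (V : Type) (G : SimpleGraph V) (x y z : V) (q : G.Walk y z),
  q.IsPath → x ∉ q.support → 1 ≤ q.length → G.Adj x y → G.Adj x z →
  ∃ w : G.Walk x x, w.IsCycle ∧ w.length = q.length + 2 ∧ s(x, z) ∈ w.edges

/-- GOOD: enough paths make xz pancyclic (CE, CO; length 3 is x, y, z). -/
def S_GOOD : Prop := ∀ (V : Type) [Fintype V] (G : SimpleGraph V) (X Y : Finset V) (x y z : V),
  Nb G X Y x y → z ∈ Y → G.Adj x z → G.Adj y z →
  (∀ j, 2 ≤ j → 2 * j + 1 ≤ Fintype.card V → Pa G (X.erase x) Y y z j) →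
  (∀ j, 2 ≤ j → 2 * j ≤ Fintype.card V → Pa G X Y x z j) → Pan G x z

/-! ### Facts from the hamiltonian cycle and counting -/

/-- SYM. -/
def S_SYM : Prop := ∀ (V : Type) (G : SimpleGraph V) (X Y : Finset V) (x y : V),
  Nb G X Y x y → Nb G X Y y x

/-- XX: class sizes.  Every i with c i in Y has c (i+1) in X; the indices i with c i in X and
c (i-1) in X are the places of the edge xy in the cycle, at most one. -/
def S_XX : Prop := ∀ (V : Type) [Fintype V] (G : SimpleGraph V) (X Y : Finset V) (x y : V)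
  (c : ℕ → V), Nb G X Y x y → 3 ≤ Fintype.card V → Cyc G (Fintype.card V) c →
  X.card = Y.card ∨ X.card = Y.card + 1

/-- HE: if the classes have the same size the cycle does not use xy, so every vertex has two
neighbours in the other class. -/
def S_HE : Prop := ∀ (V : Type) [Fintype V] (G : SimpleGraph V) (X Y : Finset V) (x y : V)
  (c : ℕ → V), Nb G X Y x y → 3 ≤ Fintype.card V → Cyc G (Fintype.card V) c →
  X.card = Y.card →
  (∀ v ∈ X, ∃ a ∈ Y, ∃ b ∈ Y, a ≠ b ∧ G.Adj v a ∧ G.Adj v b) ∧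
  (∀ v ∈ Y, ∃ a ∈ X, ∃ b ∈ X, a ≠ b ∧ G.Adj a v ∧ G.Adj b v)

/-- HO: if card X = card Y + 1 the cycle uses xy; every vertex other than x, y has two neighbours in
the other class, and every v in Y has a neighbour other than x, y (otherwise the cycle would be
x, v, y). -/
def S_HO : Prop := ∀ (V : Type) [Fintype V] (G : SimpleGraph V) (X Y : Finset V) (x y : V)
  (c : ℕ → V), Nb G X Y x y → 4 ≤ Fintype.card V → Cyc G (Fintype.card V) c →
  X.card = Y.card + 1 →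
  (∀ v ∈ X, v ≠ x → v ≠ y → ∃ a ∈ Y, ∃ b ∈ Y, a ≠ b ∧ G.Adj v a ∧ G.Adj v b) ∧
  (∀ v ∈ Y, ∃ a ∈ X, ∃ b ∈ X, a ≠ b ∧ G.Adj a v ∧ G.Adj b v) ∧
  (∀ v ∈ Y, ∃ a ∈ X, a ≠ x ∧ a ≠ y ∧ G.Adj a v)

/-- EC: number of edges. -/
def S_EC : Prop := ∀ (V : Type) [Fintype V] (G : SimpleGraph V) (X Y : Finset V) (x y : V),
  Nb G X Y x y → G.edgeSet.ncard + mis G X Y = X.card * Y.card + 1

/-- COM: common neighbours of x and y outside T. -/
def S_COM : Prop := ∀ (V : Type) (G : SimpleGraph V) (X Y T : Finset V) (x y : V),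
  Nb G X Y x y →
  ((Y.filter fun b => ¬ G.Adj x b).card + (Y.filter fun b => ¬ G.Adj y b).card ≤ mis G X Y) ∧
  ((Y.filter fun b => ¬ G.Adj x b).card + (Y.filter fun b => ¬ G.Adj y b).card + T.card <
    Y.card → ∃ z ∈ Y, z ∉ T ∧ G.Adj x z ∧ G.Adj y z)

/-! ### n = 2 k + 1 -/

/-- O1: z any common neighbour (COM); P in (X - x, Y) and in (X - y, Y), KILL1 (3rd part). -/
def S_O1 : Prop := ∀ (V : Type) [Fintype V] (G : SimpleGraph V) (X Y : Finset V) (x y : V)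
  (k : ℕ), Nb G X Y x y → X.card = k + 1 → Y.card = k → 3 ≤ k → mis G X Y + 2 ≤ k →
  ∃ z, Pan G x z

/-- O2: a missing pair at x and a missing pair at w ≠ x: z any common neighbour, P in (X - x, Y)
and in (X - w, Y) (KILL1, 2nd part). -/
def S_O2 : Prop := ∀ (V : Type) [Fintype V] (G : SimpleGraph V) (X Y : Finset V) (x y w b b' : V)
  (k : ℕ), Nb G X Y x y → X.card = k + 1 → Y.card = k → 3 ≤ k → mis G X Y + 1 = k →
  b ∈ Y → ¬ G.Adj x b → w ∈ X → w ≠ x → b' ∈ Y → ¬ G.Adj w b' → ∃ z, Pan G x z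

/-- O3: all missing pairs at x: G is BT(2k+1) (x has exactly one neighbour z0 in Y, all other
vertices of X are adjacent to all of Y; x to none, y to inl 0, z0 to inr 0). -/
def S_O3 : Prop := ∀ (V : Type) [Fintype V] (G : SimpleGraph V) (X Y : Finset V) (x y : V)
  (k : ℕ), Nb G X Y x y → X.card = k + 1 → Y.card = k → 3 ≤ k → mis G X Y + 1 = k →
  (∀ w ∈ X, w ≠ x → ∀ b ∈ Y, G.Adj w b) → Nonempty (G ≃g BT k)

/-- O4a: x, y complete to Y, some b with two missing pairs (a1,b), (a2,b).  z ≠ b in Y.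
Paths from y to z in (X - x, Y): j = 2: a ≠ x, y adjacent to z (h3), b'' ≠ z adjacent to a (h1), APP
and PA1; j ≥ 3: PRE with y, b and a' ≠ x, y adjacent to b (h3), P in ((X-x)-y, Y-b), two missing
pairs disappear (KILL2 after KILL1 mono).  Paths from x to z: P in (X - a1, Y), PA1. -/
def S_O4a : Prop := ∀ (V : Type) [Fintype V] (G : SimpleGraph V) (X Y : Finset V)
  (x y b a1 a2 : V) (k : ℕ), Nb G X Y x y → X.card = k + 1 → Y.card = k → 3 ≤ k →
  mis G X Y + 1 = k → (∀ b ∈ Y, G.Adj x b) → (∀ b ∈ Y, G.Adj y b) →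
  (∀ v ∈ X, v ≠ x → v ≠ y → ∃ a ∈ Y, ∃ b ∈ Y, a ≠ b ∧ G.Adj v a ∧ G.Adj v b) →
  (∀ v ∈ Y, ∃ a ∈ X, a ≠ x ∧ a ≠ y ∧ G.Adj a v) →
  b ∈ Y → a1 ∈ X → a2 ∈ X → a1 ≠ a2 → ¬ G.Adj a1 b → ¬ G.Adj a2 b → ∃ z, Pan G x z

/-- O4b: x, y complete to Y, every b has at most one missing pair.  Take a missing pair (a0, z) and
a missing pair (a, c) with a ≠ a0 (otherwise a0 has k - 1 missing pairs, one neighbour, against
h1).  a is adjacent to z.  b' ≠ z adjacent to a (h1).  Paths from y to z in (X - x, Y): APP with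
a, b', and PA1 (j = 2) or P in ((X-x)-a, Y-z) (two pairs disappear).  Paths from x to z: P in
(X - a0, Y). -/
def S_O4b : Prop := ∀ (V : Type) [Fintype V] (G : SimpleGraph V) (X Y : Finset V)
  (x y : V) (k : ℕ), Nb G X Y x y → X.card = k + 1 → Y.card = k → 3 ≤ k →
  mis G X Y + 1 = k → (∀ b ∈ Y, G.Adj x b) → (∀ b ∈ Y, G.Adj y b) →
  (∀ v ∈ X, v ≠ x → v ≠ y → ∃ a ∈ Y, ∃ b ∈ Y, a ≠ b ∧ G.Adj v a ∧ G.Adj v b) →
  (∀ b ∈ Y, ∀ a ∈ X, ∀ a' ∈ X, ¬ G.Adj a b → ¬ G.Adj a' b → a = a') → ∃ z, Pan G x z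

/-- ODD: all cases, x and y exchanged by SYM where needed. -/
def S_ODD : Prop := ∀ (V : Type) [Fintype V] (G : SimpleGraph V) (X Y : Finset V)
  (x y : V) (k : ℕ), Nb G X Y x y → X.card = k + 1 → Y.card = k → 3 ≤ k →
  mis G X Y + 1 ≤ k →
  (∀ v ∈ X, v ≠ x → v ≠ y → ∃ a ∈ Y, ∃ b ∈ Y, a ≠ b ∧ G.Adj v a ∧ G.Adj v b) →
  (∀ v ∈ Y, ∃ a ∈ X, a ≠ x ∧ a ≠ y ∧ G.Adj a v) →
  (∃ u v, Pan G u v) ∨ Nonempty (G ≃g BT k)

/-! ### n = 2 k -/

/-- EK: a good b.  Paths from y to z in (X - x, Y): P in (X - x, Y - b), PA1.  Paths from x to z: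
j = 2: P4 (a = y, b = b); j ≥ 3: PRE with x, b, a' ≠ x adjacent to b (h2), P in (X - x, Y - b). -/
def S_EK : Prop := ∀ (V : Type) [Fintype V] (G : SimpleGraph V) (X Y : Finset V)
  (x y b z : V) (k : ℕ), Nb G X Y x y → X.card = k → Y.card = k → 4 ≤ k → mis G X Y + 1 ≤ k →
  (∀ v ∈ Y, ∃ a ∈ X, ∃ b ∈ X, a ≠ b ∧ G.Adj a v ∧ G.Adj b v) →
  b ∈ Y → z ∈ Y → z ≠ b → G.Adj x b → G.Adj x z → G.Adj y z →
  mis G (X.erase x) (Y.erase b) + 3 ≤ k → Pan G x z

/-- E12: at most k - 2 missing pairs.  Paths from x to z: P in (X, Y).  Paths from y to z in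
(X - x, Y): P in (X - x, Y - b0), with b0 ≠ z, and b0 the end of a missing pair if there is one;
z a common neighbour other than b0 (COM with T = {b0}). -/
def S_E12 : Prop := ∀ (V : Type) [Fintype V] (G : SimpleGraph V) (X Y : Finset V)
  (x y : V) (k : ℕ), Nb G X Y x y → X.card = k → Y.card = k → 4 ≤ k → mis G X Y + 2 ≤ k →
  ∃ z, Pan G x z

/-- E3a: two missing pairs at x: z a common neighbour, b ≠ z adjacent to x (h1), EK. -/
def S_E3a : Prop := ∀ (V : Type) [Fintype V] (G : SimpleGraph V) (X Y : Finset V)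
  (x y b1 b2 : V) (k : ℕ), Nb G X Y x y → X.card = k → Y.card = k → 4 ≤ k →
  mis G X Y + 1 = k →
  (∀ v ∈ X, ∃ a ∈ Y, ∃ b ∈ Y, a ≠ b ∧ G.Adj v a ∧ G.Adj v b) →
  (∀ v ∈ Y, ∃ a ∈ X, ∃ b ∈ X, a ≠ b ∧ G.Adj a v ∧ G.Adj b v) →
  b1 ∈ Y → b2 ∈ Y → b1 ≠ b2 → ¬ G.Adj x b1 → ¬ G.Adj x b2 → ∃ z, Pan G x z

/-- E3b: x and y have at most one missing pair each, b has two.  If b is adjacent to x: EK with b,
z ≠ b common (COM).  If b is adjacent to y: the same with SYM.  Otherwise x and y miss exactly b;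
some missing pair (a3, b3) has b3 ≠ b (otherwise b has one neighbour, against h2); x is adjacent
to b3, z any element of Y other than b, b3: EK with b3 (KILL2 with (x, b) and (a3, b3)). -/
def S_E3b : Prop := ∀ (V : Type) [Fintype V] (G : SimpleGraph V) (X Y : Finset V)
  (x y b a1 a2 : V) (k : ℕ), Nb G X Y x y → X.card = k → Y.card = k → 4 ≤ k →
  mis G X Y + 1 = k →
  (∀ v ∈ Y, ∃ a ∈ X, ∃ b ∈ X, a ≠ b ∧ G.Adj a v ∧ G.Adj b v) →
  (∀ b ∈ Y, ∀ b' ∈ Y, ¬ G.Adj x b → ¬ G.Adj x b' → b = b') →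
  (∀ b ∈ Y, ∀ b' ∈ Y, ¬ G.Adj y b → ¬ G.Adj y b' → b = b') →
  b ∈ Y → a1 ∈ X → a2 ∈ X → a1 ≠ a2 → ¬ G.Adj a1 b → ¬ G.Adj a2 b → ∃ u v, Pan G u v

/-- E3c: x misses exactly b0, y at most one, every b has at most one missing pair: another missing
pair (a, b) has b ≠ b0, x is adjacent to b, z ≠ b common (COM), EK (KILL2). -/
def S_E3c : Prop := ∀ (V : Type) [Fintype V] (G : SimpleGraph V) (X Y : Finset V)
  (x y b0 : V) (k : ℕ), Nb G X Y x y → X.card = k → Y.card = k → 4 ≤ k →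
  mis G X Y + 1 = k →
  (∀ v ∈ Y, ∃ a ∈ X, ∃ b ∈ X, a ≠ b ∧ G.Adj a v ∧ G.Adj b v) →
  (∀ b ∈ Y, ∀ b' ∈ Y, ¬ G.Adj x b → ¬ G.Adj x b' → b = b') →
  (∀ b ∈ Y, ∀ b' ∈ Y, ¬ G.Adj y b → ¬ G.Adj y b' → b = b') →
  (∀ b ∈ Y, ∀ a ∈ X, ∀ a' ∈ X, ¬ G.Adj a b → ¬ G.Adj a' b → a = a') →
  b0 ∈ Y → ¬ G.Adj x b0 → ∃ z, Pan G x z

/-- E3d: x, y complete to Y, every b has at most one missing pair.  Missing pairs (a0, z), (a, c)
with a ≠ a0 (otherwise a0 has one neighbour), and a third one (a'', b), at a if a has two missing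
pairs.  b' in Y other than z, b adjacent to a (if a'' = a: by h1, b is not adjacent to a; otherwise
a misses only c and k ≥ 4).  a is adjacent to z.  Paths from y to z in (X - x, Y): inside
(X - x, Y - b), APP with a, b'; PA1 or P in (((X-x)-a), ((Y-b)-z)) of size k - 2 with at most
k - 4 missing pairs.  Paths from x to z: APP with a, b' in (X, Y); PA1 or P in (X - a, Y - z). -/
def S_E3d : Prop := ∀ (V : Type) [Fintype V] (G : SimpleGraph V) (X Y : Finset V)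
  (x y : V) (k : ℕ), Nb G X Y x y → X.card = k → Y.card = k → 4 ≤ k →
  mis G X Y + 1 = k → (∀ b ∈ Y, G.Adj x b) → (∀ b ∈ Y, G.Adj y b) →
  (∀ v ∈ X, ∃ a ∈ Y, ∃ b ∈ Y, a ≠ b ∧ G.Adj v a ∧ G.Adj v b) →
  (∀ b ∈ Y, ∀ a ∈ X, ∀ a' ∈ X, ¬ G.Adj a b → ¬ G.Adj a' b → a = a') → ∃ z, Pan G x z

/-- EVE: all cases of n = 2 k (E12; E3a for x or for y; E3b; E3c for x or for y; E3d). -/
def S_EVE : Prop := ∀ (V : Type) [Fintype V] (G : SimpleGraph V) (X Y : Finset V)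
  (x y : V) (k : ℕ), Nb G X Y x y → X.card = k → Y.card = k → 4 ≤ k → mis G X Y + 1 ≤ k →
  (∀ v ∈ X, ∃ a ∈ Y, ∃ b ∈ Y, a ≠ b ∧ G.Adj v a ∧ G.Adj v b) →
  (∀ v ∈ Y, ∃ a ∈ X, ∃ b ∈ X, a ≠ b ∧ G.Adj a v ∧ G.Adj b v) → ∃ u v, Pan G u v

/-! ### The theorem -/

/-- SET: the classes (colour classes of a 2-colouring of G - xy; x and y have the same colour since
G is not 2-colourable). -/
def S_SET : Prop := ∀ (V : Type) [Fintype V] (G : SimpleGraph V) (x y : V), G.Adj x y →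
  ¬ G.IsBipartite → (G.deleteEdges {s(x, y)}).IsBipartite → ∃ X Y : Finset V, Nb G X Y x y

/-- The theorem (from SET, HC of the first theorem, XX, EC, HE, HO, ODD, EVE). -/
def S_NB : Prop := ∀ (V : Type) [Fintype V] [DecidableEq V] (G : SimpleGraph V),
  7 ≤ Fintype.card V → G.IsHamiltonian → (Fintype.card V - 1) ^ 2 / 4 + 2 ≤ G.edgeSet.ncard →
  ¬ G.IsBipartite → (∃ x y : V, G.Adj x y ∧ (G.deleteEdges {s(x, y)}).IsBipartite) →
  (∃ u v : V, Pan G u v) ∨ ∃ k, Fintype.card V = 2 * k + 1 ∧ Nonempty (G ≃g BT k)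

end Pool.NB
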